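import Mathlib

set_option autoImplicit false
open Finset

namespace Pool.Agent.H979R2.Glauber

/-- `σ : V → Fin q` is a proper colouring of `G`. -/
def Proper {V : Type} (G : SimpleGraph V) (q : ℕ) (σ : V → Fin q) : Prop :=
  ∀ u v, G.Adj u v → σ u ≠ σ v

/-- The state space: proper `q`-colourings of `G`. -/
abbrev Col {V : Type} (G : SimpleGraph V) (q : ℕ) : Type := {σ : V → Fin q // Proper G q σ}

open Classical in
/-- One attempted Glauber update: recolour `v` with `c` if the result is proper, otherwise stay. -/
noncomputable def move {V : Type} [DecidableEq V] (G : SimpleGraph V) (q : ℕ) (σ : Col G q) (v : V) (c : Fin q) :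
    Col G q :=
  if h : Proper G q (Function.update σ.1 v c) then ⟨Function.update σ.1 v c, h⟩ else σ

open Classical in
/-- Transition matrix of Glauber dynamics: the vertex and the colour are independent and uniform. -/
noncomputable def P {V : Type} [Fintype V] [DecidableEq V] (G : SimpleGraph V) (q : ℕ) :
    Matrix (Col G q) (Col G q) ℝ :=
  fun σ τ => ((Finset.univ.filter (fun x : V × Fin q => move G q σ x.1 x.2 = τ)).card : ℝ)
    / ((Fintype.card V : ℝ) * (q : ℝ))

open Classical in
/-- Total variation distance to the uniform distribution after `t` steps from `σ`. -/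
noncomputable def tv {V : Type} [Fintype V] [DecidableEq V] (G : SimpleGraph V) (q t : ℕ) (σ : Col G q) : ℝ :=
  (1 / 2 : ℝ) * ∑ τ : Col G q, |(P G q ^ t) σ τ - 1 / (Fintype.card (Col G q) : ℝ)|

/-- Mixing time with threshold `1/e`, as an element of `ℕ∞`. -/
noncomputable def tmix {V : Type} [Fintype V] [DecidableEq V] (G : SimpleGraph V) (q : ℕ) : ℕ∞ :=
  ⨅ t ∈ {t : ℕ | ∀ σ : Col G q, tv G q t σ ≤ Real.exp (-1)}, (t : ℕ∞)

section general

open Classical

variable {V : Type} [Fintype V] [DecidableEq V] {G : SimpleGraph V} {q : ℕ}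

lemma move_val_of (σ : Col G q) (v : V) (c : Fin q) :
    (move G q σ v c).1 = Function.update σ.1 v c ∨ move G q σ v c = σ := by
  unfold move
  split_ifs with h
  · left; rfl
  · right; rfl

/-- The basic sum formula for a row. -/
lemma P_eq (σ τ : Col G q) : P G q σ τ
    = (∑ x : V × Fin q, (if move G q σ x.1 x.2 = τ then (1:ℝ) else 0))
      / ((Fintype.card V : ℝ) * (q : ℝ)) := by
  unfold P
  congr 1
  simp

lemma P_nonneg (σ τ : Col G q) : 0 ≤ P G q σ τ := by
  unfold P; positivity

lemma P_mul (h : Col G q → ℝ) (σ : Col G q) :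
    ∑ ρ, P G q σ ρ * h ρ
      = (∑ x : V × Fin q, h (move G q σ x.1 x.2)) / ((Fintype.card V : ℝ) * (q : ℝ)) := by
  simp_rw [P_eq, div_mul_eq_mul_div, Finset.sum_mul]
  rw [← Finset.sum_div]
  congr 1
  rw [Finset.sum_comm]
  apply Finset.sum_congr rfl
  intro x _
  simp

lemma P_row [Nonempty V] (hq : 0 < q) (σ : Col G q) : ∑ ρ, P G q σ ρ = 1 := by
  have h := P_mul (G := G) (q := q) (fun _ => 1) σ
  simp only [mul_one] at h
  rw [h]
  simp only [Finset.sum_const, Finset.card_univ, Fintype.card_prod, Fintype.card_fin, nsmul_eq_mul,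
    Nat.cast_mul, mul_one]
  have h1 : (0:ℝ) < Fintype.card V := by exact_mod_cast Fintype.card_pos
  have h2 : (0:ℝ) < q := by exact_mod_cast hq
  field_simp

lemma move_symm_aux (σ τ : Col G q) (v : V) :
    (Finset.univ.filter (fun c : Fin q => move G q σ v c = τ)).card
      ≤ (Finset.univ.filter (fun c : Fin q => move G q τ v c = σ)).card := by
  by_cases hστ : σ = τ
  · subst hστ; exact le_rfl
  · by_cases hne : ∃ c, move G q σ v c = τ
    · obtain ⟨c, hc⟩ := hne
      have hc1 : (move G q σ v c).1 = Function.update σ.1 v c := by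
        rcases move_val_of σ v c with h | h
        · exact h
        · exact absurd (h.symm.trans hc) hστ
      have hτ : τ.1 = Function.update σ.1 v c := by rw [← hc1, hc]
      have hall : ∀ c', move G q σ v c' = τ → c' = c := by
        intro c' hc'
        have h1 : (move G q σ v c').1 = Function.update σ.1 v c' := by
          rcases move_val_of σ v c' with h | h
          · exact h
          · exact absurd (h.symm.trans hc') hστ
        have h2 : τ.1 = Function.update σ.1 v c' := by rw [← h1, hc']
        have h3 := congrFun (hτ.symm.trans h2) v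
        simpa using h3.symm
      have hback : move G q τ v (σ.1 v) = σ := by
        have hup : Function.update τ.1 v (σ.1 v) = σ.1 := by
          rw [hτ, Function.update_idem, Function.update_eq_self]
        unfold move
        have hp : Proper G q (Function.update τ.1 v (σ.1 v)) := by rw [hup]; exact σ.2
        rw [dif_pos hp]
        exact Subtype.ext hup
      calc (Finset.univ.filter (fun c : Fin q => move G q σ v c = τ)).card
          ≤ ({c} : Finset (Fin q)).card := by
            apply Finset.card_le_card
            intro c' hc'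
            rw [Finset.mem_filter] at hc'
            rw [Finset.mem_singleton]
            exact hall c' hc'.2
        _ = ({σ.1 v} : Finset (Fin q)).card := by simp
        _ ≤ (Finset.univ.filter (fun c : Fin q => move G q τ v c = σ)).card := by
            apply Finset.card_le_card
            intro c' hc'
            rw [Finset.mem_singleton] at hc'
            rw [Finset.mem_filter, hc']
            exact ⟨Finset.mem_univ _, hback⟩
    · push Not at hne
      have : (Finset.univ.filter (fun c : Fin q => move G q σ v c = τ)) = ∅ := by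
        apply Finset.filter_eq_empty_iff.2
        intro c _
        exact hne c
      rw [this]
      simp

lemma P_symm (σ τ : Col G q) : P G q σ τ = P G q τ σ := by
  have key : ∀ σ τ : Col G q,
      (Finset.univ.filter (fun x : V × Fin q => move G q σ x.1 x.2 = τ)).card
        = ∑ v : V, (Finset.univ.filter (fun c : Fin q => move G q σ v c = τ)).card := by
    intro σ τ
    rw [Finset.card_filter, Fintype.sum_prod_type]
    apply Finset.sum_congr rfl
    intro v _
    rw [Finset.card_filter]
  unfold P
  rw [key σ τ, key τ σ]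
  have : ∀ v : V, (Finset.univ.filter (fun c : Fin q => move G q σ v c = τ)).card
      = (Finset.univ.filter (fun c : Fin q => move G q τ v c = σ)).card := by
    intro v
    exact le_antisymm (move_symm_aux σ τ v) (move_symm_aux τ σ v)
  rw [Finset.sum_congr rfl (fun v _ => this v)]

lemma P_transpose : (P G q).transpose = P G q := by
  ext σ τ
  rw [Matrix.transpose_apply]
  exact P_symm τ σ

lemma Ppow_symm (t : ℕ) (σ τ : Col G q) : (P G q ^ t) σ τ = (P G q ^ t) τ σ := by
  have h : (P G q ^ t).transpose = P G q ^ t := by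
    rw [Matrix.transpose_pow, P_transpose]
  calc (P G q ^ t) σ τ = (P G q ^ t).transpose τ σ := rfl
    _ = (P G q ^ t) τ σ := by rw [h]

/-- backward recursion -/
lemma Ppow_succ (t : ℕ) (σ τ : Col G q) : (P G q ^ (t+1)) σ τ
    = (∑ x : V × Fin q, (P G q ^ t) (move G q σ x.1 x.2) τ) / ((Fintype.card V : ℝ) * (q : ℝ)) := by
  rw [pow_succ', Matrix.mul_apply]
  exact P_mul (fun ρ => (P G q ^ t) ρ τ) σ

lemma P_col [Nonempty V] (hq : 0 < q) (τ : Col G q) : ∑ ρ, P G q ρ τ = 1 := by
  rw [← P_row hq τ]
  exact Finset.sum_congr rfl (fun ρ _ => P_symm ρ τ)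

lemma tv_succ_le [Nonempty V] (hq : 0 < q) (t : ℕ) (σ : Col G q) : tv G q (t+1) σ ≤ tv G q t σ := by
  unfold tv
  apply mul_le_mul_of_nonneg_left _ (by norm_num)
  set N := (Fintype.card (Col G q) : ℝ)
  have h1 : ∀ τ : Col G q, |(P G q ^ (t+1)) σ τ - 1 / N|
      ≤ ∑ ρ, |(P G q ^ t) σ ρ - 1 / N| * P G q ρ τ := by
    intro τ
    have h2 : (P G q ^ (t+1)) σ τ - 1 / N = ∑ ρ, ((P G q ^ t) σ ρ - 1 / N) * P G q ρ τ := by
      rw [pow_succ, Matrix.mul_apply]
      simp_rw [sub_mul]
      rw [Finset.sum_sub_distrib, ← Finset.mul_sum, P_col hq τ, mul_one]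
    rw [h2]
    refine (Finset.abs_sum_le_sum_abs _ _).trans ?_
    apply le_of_eq
    apply Finset.sum_congr rfl
    intro ρ _
    rw [abs_mul, abs_of_nonneg (P_nonneg ρ τ)]
  calc ∑ τ, |(P G q ^ (t+1)) σ τ - 1 / N|
      ≤ ∑ τ, ∑ ρ, |(P G q ^ t) σ ρ - 1 / N| * P G q ρ τ := Finset.sum_le_sum (fun τ _ => h1 τ)
    _ = ∑ ρ, |(P G q ^ t) σ ρ - 1 / N| * ∑ τ, P G q ρ τ := by
        rw [Finset.sum_comm]
        apply Finset.sum_congr rfl
        intro ρ _
        rw [Finset.mul_sum]
    _ = ∑ ρ, |(P G q ^ t) σ ρ - 1 / N| := by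
        apply Finset.sum_congr rfl
        intro ρ _
        rw [P_row hq ρ, mul_one]

lemma tv_anti [Nonempty V] (hq : 0 < q) {s t : ℕ} (hst : s ≤ t) (σ : Col G q) :
    tv G q t σ ≤ tv G q s σ := by
  induction t, hst using Nat.le_induction with
  | base => exact le_rfl
  | succ t _ ih => exact (tv_succ_le hq t σ).trans ih

/-- relabelling of colours -/
def relab (e : Equiv.Perm (Fin q)) : Col G q ≃ Col G q where
  toFun σ := ⟨fun v => e (σ.1 v), fun u v h h2 => σ.2 u v h (e.injective h2)⟩
  invFun σ := ⟨fun v => e.symm (σ.1 v), fun u v h h2 => σ.2 u v h (e.symm.injective h2)⟩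
  left_inv σ := by apply Subtype.ext; funext v; simp
  right_inv σ := by apply Subtype.ext; funext v; simp

lemma move_relab (e : Equiv.Perm (Fin q)) (σ : Col G q) (v : V) (c : Fin q) :
    move G q (relab e σ) v (e c) = relab e (move G q σ v c) := by
  have h1 : Function.update (relab e σ).1 v (e c) = fun w => e (Function.update σ.1 v c w) := by
    funext w
    by_cases hw : w = v
    · subst hw; simp
    · simp [Function.update_of_ne hw, relab]
  have h2 : Proper G q (Function.update (relab e σ).1 v (e c)) ↔ Proper G q (Function.update σ.1 v c) := by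
    rw [h1]
    constructor
    · intro h u w huw h3
      exact h u w huw (congrArg e h3)
    · intro h u w huw h3
      exact h u w huw (e.injective h3)
  unfold move
  by_cases h : Proper G q (Function.update σ.1 v c)
  · rw [dif_pos h, dif_pos (h2.2 h)]
    exact Subtype.ext h1
  · rw [dif_neg h, dif_neg (fun h3 => h (h2.1 h3))]

lemma P_relab (e : Equiv.Perm (Fin q)) (σ τ : Col G q) :
    P G q (relab e σ) (relab e τ) = P G q σ τ := by
  rw [P_eq, P_eq]
  congr 1
  rw [← (Equiv.prodCongr (Equiv.refl V) e).sum_comp]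
  apply Finset.sum_congr rfl
  intro x _
  simp only [Equiv.prodCongr_apply, Equiv.coe_refl, Prod.map_fst, Prod.map_snd, id_eq]
  rw [move_relab]
  simp [(relab (G := G) e).injective.eq_iff]

lemma Ppow_relab (e : Equiv.Perm (Fin q)) (t : ℕ) (σ τ : Col G q) :
    (P G q ^ t) (relab e σ) (relab e τ) = (P G q ^ t) σ τ := by
  induction t generalizing σ τ with
  | zero =>
    rw [pow_zero, Matrix.one_apply, Matrix.one_apply]
    simp [(relab (G := G) e).injective.eq_iff]
  | succ t ih =>
    rw [pow_succ, Matrix.mul_apply, Matrix.mul_apply, ← (relab (G := G) e).sum_comp]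
    apply Finset.sum_congr rfl
    intro ρ _
    rw [ih, P_relab]

lemma tv_relab (e : Equiv.Perm (Fin q)) (t : ℕ) (σ : Col G q) :
    tv G q t (relab e σ) = tv G q t σ := by
  unfold tv
  rw [← (relab (G := G) e).sum_comp]
  congr 1
  apply Finset.sum_congr rfl
  intro ρ _
  rw [Ppow_relab]

end general

end Pool.Agent.H979R2.Glauber
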