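import Pool.Agent.H979R2.GlauberPath

set_option autoImplicit false
open Finset

namespace Pool.Agent.H979R2.Glauber

open Classical

section doeblin

variable {n : ℕ} {G : SimpleGraph (Fin n)} {q : ℕ}

lemma Ppow_nonneg (t : ℕ) : ∀ σ τ : Col G q, 0 ≤ (P G q ^ t) σ τ := by
  induction t with
  | zero =>
    intro σ τ
    rw [pow_zero, Matrix.one_apply]
    split_ifs <;> norm_num
  | succ t ih =>
    intro σ τ
    rw [Ppow_succ]
    exact div_nonneg (Finset.sum_nonneg (fun x _ => ih _ _)) (by positivity)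

lemma osc (hn : 0 < n) (hq : 0 < q) (ρ0 : Col G q) (m : ℕ) (δ : ℝ)
    (h : ∀ σ, δ ≤ (P G q ^ m) σ ρ0) (k : ℕ) :
    ∀ σ σ' τ : Col G q, (P G q ^ (m * k)) σ τ - (P G q ^ (m * k)) σ' τ ≤ (1 - δ) ^ k := by
  induction k with
  | zero =>
    intro σ σ' τ
    rw [mul_zero, pow_zero, pow_zero, Matrix.one_apply, Matrix.one_apply]
    split_ifs <;> norm_num
  | succ k ih =>
    intro σ σ' τ
    set hh : Col G q → ℝ := fun ρ => (P G q ^ (m * k)) ρ τ with hhdef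
    have hexp : ∀ σ : Col G q, (P G q ^ (m * (k+1))) σ τ = ∑ ρ, (P G q ^ m) σ ρ * hh ρ := by
      intro σ
      rw [mul_add, mul_one, add_comm, pow_add, Matrix.mul_apply]
    let B : Col G q → Col G q → ℝ := fun σ ρ => (P G q ^ m) σ ρ - (if ρ = ρ0 then δ else 0)
    have hB0 : ∀ σ ρ, 0 ≤ B σ ρ := by
      intro σ ρ
      show 0 ≤ (P G q ^ m) σ ρ - (if ρ = ρ0 then δ else 0)
      split_ifs with h1
      · rw [h1]; linarith [h σ]
      · linarith [Ppow_nonneg m σ ρ]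
    have hBs : ∀ σ, ∑ ρ, B σ ρ = 1 - δ := by
      intro σ
      show ∑ ρ, ((P G q ^ m) σ ρ - (if ρ = ρ0 then δ else 0)) = 1 - δ
      rw [Finset.sum_sub_distrib, Ppow_row hn hq]
      simp
    have hexp2 : ∀ σ : Col G q, (P G q ^ (m * (k+1))) σ τ = ∑ ρ, B σ ρ * hh ρ + δ * hh ρ0 := by
      intro σ
      rw [hexp σ]
      have : ∑ ρ, B σ ρ * hh ρ = ∑ ρ, (P G q ^ m) σ ρ * hh ρ - δ * hh ρ0 := by
        show ∑ ρ, ((P G q ^ m) σ ρ - (if ρ = ρ0 then δ else 0)) * hh ρ = _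
        simp_rw [sub_mul]
        rw [Finset.sum_sub_distrib]
        simp
      rw [this]; ring
    haveI : Nonempty (Col G q) := ⟨ρ0⟩
    obtain ⟨M, hM⟩ := Finite.exists_max hh
    obtain ⟨N, hN⟩ := Finite.exists_min hh
    have h1 : ∑ ρ, B σ ρ * hh ρ ≤ (1 - δ) * hh M := by
      rw [← hBs σ, Finset.sum_mul]
      exact Finset.sum_le_sum (fun ρ _ => mul_le_mul_of_nonneg_left (hM ρ) (hB0 σ ρ))
    have h2 : (1 - δ) * hh N ≤ ∑ ρ, B σ' ρ * hh ρ := by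
      rw [← hBs σ', Finset.sum_mul]
      exact Finset.sum_le_sum (fun ρ _ => mul_le_mul_of_nonneg_left (hN ρ) (hB0 σ' ρ))
    have h3 : hh M - hh N ≤ (1 - δ) ^ k := ih M N τ
    have hδ : 0 ≤ 1 - δ := by rw [← hBs σ]; exact Finset.sum_nonneg (fun ρ _ => hB0 σ ρ)
    rw [hexp2 σ, hexp2 σ', pow_succ]
    have h4 : (1 - δ) * (hh M - hh N) ≤ (1 - δ) * (1 - δ) ^ k := mul_le_mul_of_nonneg_left h3 hδ
    nlinarith

lemma dist_le (hn : 0 < n) (hq : 0 < q) (ρ0 : Col G q) (m : ℕ) (δ : ℝ)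
    (h : ∀ σ, δ ≤ (P G q ^ m) σ ρ0) (k : ℕ) (σ τ : Col G q) :
    |(P G q ^ (m * k)) σ τ - 1 / (Fintype.card (Col G q) : ℝ)| ≤ (1 - δ) ^ k := by
  have hN : (0:ℝ) < Fintype.card (Col G q) := by
    have : 0 < Fintype.card (Col G q) := Fintype.card_pos_iff.2 ⟨σ⟩
    exact_mod_cast this
  set N := (Fintype.card (Col G q) : ℝ) with hNdef
  have h1 : ∑ σ' : Col G q, (P G q ^ (m * k)) σ' τ = 1 := by
    rw [← Ppow_row hn hq (m * k) τ]
    exact Finset.sum_congr rfl (fun ρ _ => Ppow_symm _ _ _)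
  have h2 : N * ((P G q ^ (m * k)) σ τ - 1 / N)
      = ∑ σ' : Col G q, ((P G q ^ (m * k)) σ τ - (P G q ^ (m * k)) σ' τ) := by
    rw [Finset.sum_sub_distrib, h1]
    simp only [Finset.sum_const, Finset.card_univ, nsmul_eq_mul]
    rw [← hNdef]
    field_simp
  have ho := osc hn hq ρ0 m δ h k
  rw [abs_le]
  constructor
  · have h3 : ∑ σ' : Col G q, -(1 - δ) ^ k ≤ N * ((P G q ^ (m * k)) σ τ - 1 / N) := by
      rw [h2]
      apply Finset.sum_le_sum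
      intro σ' _
      linarith [ho σ' σ τ]
    simp only [Finset.sum_const, Finset.card_univ, nsmul_eq_mul] at h3
    exact le_of_mul_le_mul_left h3 hN
  · have h3 : N * ((P G q ^ (m * k)) σ τ - 1 / N) ≤ ∑ σ' : Col G q, (1 - δ) ^ k := by
      rw [h2]
      apply Finset.sum_le_sum
      intro σ' _
      exact ho σ σ' τ
    simp only [Finset.sum_const, Finset.card_univ, nsmul_eq_mul] at h3
    exact le_of_mul_le_mul_left h3 hN

lemma exists_mixed (hn : 0 < n) (hq : 0 < q) (ρ0 : Col G q) (m : ℕ) (δ : ℝ) (hδ : 0 < δ)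
    (h : ∀ σ, δ ≤ (P G q ^ m) σ ρ0) : ∃ t, ∀ σ : Col G q, tv G q t σ ≤ Real.exp (-1) := by
  have hN : (0:ℝ) < Fintype.card (Col G q) := by
    have : 0 < Fintype.card (Col G q) := Fintype.card_pos_iff.2 ⟨ρ0⟩
    exact_mod_cast this
  have hδ1 : δ ≤ 1 := by
    refine (h ρ0).trans ?_
    rw [← Ppow_row hn hq m ρ0]
    exact Finset.single_le_sum (f := fun τ => (P G q ^ m) ρ0 τ)
      (fun τ _ => Ppow_nonneg m ρ0 τ) (Finset.mem_univ ρ0)
  obtain ⟨k, hk⟩ := exists_pow_lt_of_lt_one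
    (show (0:ℝ) < Real.exp (-1) / (Fintype.card (Col G q) : ℝ) from div_pos (Real.exp_pos _) hN)
    (show 1 - δ < 1 by linarith)
  refine ⟨m * k, fun σ => ?_⟩
  unfold tv
  have h1 : ∑ τ : Col G q, |(P G q ^ (m * k)) σ τ - 1 / (Fintype.card (Col G q) : ℝ)|
      ≤ ∑ τ : Col G q, (1 - δ) ^ k :=
    Finset.sum_le_sum (fun τ _ => dist_le hn hq ρ0 m δ h k σ τ)
  simp only [Finset.sum_const, Finset.card_univ, nsmul_eq_mul] at h1
  rw [lt_div_iff₀ hN] at hk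
  have := Real.exp_pos (-1)
  nlinarith

lemma step_ge (hn : 0 < n) (hq : 0 < q) (t : ℕ) (δ : ℝ) (σ ρ0 : Col G q) (v : Fin n) (c : Fin q)
    (h : δ ≤ (P G q ^ t) (move G q σ v c) ρ0) : δ / (n * q) ≤ (P G q ^ (t+1)) σ ρ0 := by
  rw [Ppow_succ, Fintype.card_fin]
  apply div_le_div_of_nonneg_right _ (by positivity)
  refine h.trans ?_
  exact Finset.single_le_sum (f := fun x : Fin n × Fin q => (P G q ^ t) (move G q σ x.1 x.2) ρ0)
    (fun x _ => Ppow_nonneg t _ ρ0) (Finset.mem_univ (v, c))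

end doeblin

lemma exists_avoid (q : ℕ) (hq : 7 ≤ q) (a b c d : Fin q) : ∃ x : Fin q, x ≠ a ∧ x ≠ b ∧ x ≠ c ∧ x ≠ d := by
  have h : ({a, b, c, d} : Finset (Fin q)).card < (Finset.univ : Finset (Fin q)).card := by
    calc ({a, b, c, d} : Finset (Fin q)).card ≤ 4 := Finset.card_le_four
      _ < 7 := by norm_num
      _ ≤ _ := by simpa using hq
  obtain ⟨x, -, hx⟩ := Finset.exists_mem_notMem_of_card_lt_card h
  simp only [Finset.mem_insert, Finset.mem_singleton, not_or] at hx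
  exact ⟨x, hx⟩

/-- recolouring, when allowed -/
lemma move_eq (q : ℕ) (σ τ : Col (SimpleGraph.pathGraph 4) q) (v : Fin 4) (c : Fin q)
    (h : τ.1 = Function.update σ.1 v c) : move _ q σ v c = τ := by
  have hp : Proper (SimpleGraph.pathGraph 4) q (Function.update σ.1 v c) := by rw [← h]; exact τ.2
  unfold move
  rw [dif_pos hp]
  exact Subtype.ext h.symm

def mk4 (q : ℕ) (a b c d : Fin q) (h1 : a ≠ b) (h2 : b ≠ c) (h3 : c ≠ d) :
    Col (SimpleGraph.pathGraph 4) q := ⟨![a, b, c, d], by rw [proper_iff]; exact ⟨h1, h2, h3⟩⟩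

lemma tmix_finite (q : ℕ) (hq : 7 ≤ q) : tmix (SimpleGraph.pathGraph 4) q ≠ ⊤ := by
  have hq0 : 0 < q := by omega
  let z : Fin q := ⟨0, hq0⟩
  let o : Fin q := ⟨1, by omega⟩
  have hzo : z ≠ o := by
    intro h
    have := congrArg Fin.val h
    simp [z, o] at this
  let ρ0 : Col (SimpleGraph.pathGraph 4) q := mk4 q z o z o hzo hzo.symm hzo
  have key : ∀ σ : Col (SimpleGraph.pathGraph 4) q,
      1 / (((4:ℕ):ℝ) * q) / (((4:ℕ):ℝ) * q) / (((4:ℕ):ℝ) * q) / (((4:ℕ):ℝ) * q) / (((4:ℕ):ℝ) * q)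
        / (((4:ℕ):ℝ) * q) / (((4:ℕ):ℝ) * q) / (((4:ℕ):ℝ) * q)
        ≤ (P (SimpleGraph.pathGraph 4) q ^ 8) σ ρ0 := by
    intro σ
    obtain ⟨s, hs⟩ := σ
    obtain ⟨p1, p2, p3⟩ := (proper_iff q s).1 hs
    obtain ⟨c0, u0, u1, u2, -⟩ := exists_avoid q hq z o (s 1) (s 1)
    obtain ⟨c1, v0, v1, v2, v3⟩ := exists_avoid q hq z o c0 (s 2)
    obtain ⟨c2, w0, w1, w2, w3⟩ := exists_avoid q hq z o c1 (s 3)
    obtain ⟨c3, x0, x1, x2, -⟩ := exists_avoid q hq z o c2 c2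
    have hs4 : s = ![s 0, s 1, s 2, s 3] := by
      funext i; fin_cases i <;> rfl
    apply step_ge (by norm_num) hq0 7 _ _ ρ0 0 c0
    rw [move_eq q _ (mk4 q c0 (s 1) (s 2) (s 3) u2 p2 p3) 0 c0 (by
      funext i; fin_cases i <;> simp [mk4])]
    apply step_ge (by norm_num) hq0 6 _ _ ρ0 1 c1
    rw [move_eq q _ (mk4 q c0 c1 (s 2) (s 3) v2.symm v3 p3) 1 c1 (by
      funext i; fin_cases i <;> simp [mk4])]
    apply step_ge (by norm_num) hq0 5 _ _ ρ0 2 c2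
    rw [move_eq q _ (mk4 q c0 c1 c2 (s 3) v2.symm w2.symm w3) 2 c2 (by
      funext i; fin_cases i <;> simp [mk4])]
    apply step_ge (by norm_num) hq0 4 _ _ ρ0 3 c3
    rw [move_eq q _ (mk4 q c0 c1 c2 c3 v2.symm w2.symm x2.symm) 3 c3 (by
      funext i; fin_cases i <;> simp [mk4])]
    apply step_ge (by norm_num) hq0 3 _ _ ρ0 0 z
    rw [move_eq q _ (mk4 q z c1 c2 c3 v0.symm w2.symm x2.symm) 0 z (by
      funext i; fin_cases i <;> simp [mk4])]
    apply step_ge (by norm_num) hq0 2 _ _ ρ0 1 o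
    rw [move_eq q _ (mk4 q z o c2 c3 hzo w1.symm x2.symm) 1 o (by
      funext i; fin_cases i <;> simp [mk4])]
    apply step_ge (by norm_num) hq0 1 _ _ ρ0 2 z
    rw [move_eq q _ (mk4 q z o z c3 hzo hzo.symm x0.symm) 2 z (by
      funext i; fin_cases i <;> simp [mk4])]
    apply step_ge (by norm_num) hq0 0 _ _ ρ0 3 o
    rw [move_eq q _ ρ0 3 o (by
      funext i; fin_cases i <;> simp [mk4, ρ0])]
    rw [pow_zero, Matrix.one_apply_eq]
  obtain ⟨t, ht⟩ := exists_mixed (by norm_num) hq0 ρ0 8 _ (by positivity) key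
  unfold tmix
  have h : (⨅ t ∈ {t : ℕ | ∀ σ : Col (SimpleGraph.pathGraph 4) q, tv _ q t σ ≤ Real.exp (-1)},
      (t : ℕ∞)) ≤ (t : ℕ∞) := iInf₂_le t ht
  exact ne_top_of_le_ne_top (ENat.coe_ne_top t) h

end Pool.Agent.H979R2.Glauber
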