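import Pool.Agent.H979R2.Glauber

set_option autoImplicit false
open Finset

namespace Pool.Agent.H979R2.Glauber

section lower

open Classical

variable {n : ℕ} {G : SimpleGraph (Fin n)} {q : ℕ}

/-- probability that `t` uniform picks out of `n` vertices miss some element of a given `k`-set -/
noncomputable def w (n : ℕ) : ℕ → ℕ → ℝ
  | 0, k => if k = 0 then 0 else 1
  | (t+1), k => ((k:ℝ) * w n t (k-1) + ((n:ℝ) - k) * w n t k) / n

/-- the event of agreeing with `σ` at some vertex -/
noncomputable def agr (σ τ : Col G q) : ℝ := if ∃ v, τ.1 v = σ.1 v then 1 else 0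

lemma w_le (hn : 0 < n) (hq : 0 < q) (σ : Col G q) (t : ℕ) : ∀ (S : Finset (Fin n)) (ρ : Col G q),
    (∀ v ∈ S, ρ.1 v = σ.1 v) → w n t S.card ≤ ∑ τ, (P G q ^ t) ρ τ * agr σ τ := by
  induction t with
  | zero =>
    intro S ρ h
    simp only [pow_zero, Matrix.one_apply, ite_mul, one_mul, zero_mul, Finset.sum_ite_eq,
      Finset.mem_univ, if_true]
    unfold w agr
    by_cases hS : S.card = 0
    · rw [if_pos hS]
      split_ifs <;> norm_num
    · rw [if_neg hS]
      have : S.Nonempty := Finset.card_ne_zero.1 hS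
      obtain ⟨v, hv⟩ := this
      rw [if_pos ⟨v, h v hv⟩]
  | succ t ih =>
    intro S ρ h
    have h1 : ∑ τ, (P G q ^ (t+1)) ρ τ * agr σ τ
        = (∑ x : Fin n × Fin q, ∑ τ, (P G q ^ t) (move G q ρ x.1 x.2) τ * agr σ τ) / ((n:ℝ) * q) := by
      simp_rw [Ppow_succ, div_mul_eq_mul_div, Finset.sum_mul, Fintype.card_fin]
      rw [← Finset.sum_div, Finset.sum_comm]
    have h2 : ∑ x : Fin n × Fin q, w n t (S.erase x.1).card
        ≤ ∑ x : Fin n × Fin q, ∑ τ, (P G q ^ t) (move G q ρ x.1 x.2) τ * agr σ τ := by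
      apply Finset.sum_le_sum
      intro x _
      apply ih
      intro v hv
      rw [Finset.mem_erase] at hv
      rcases move_val_of ρ x.1 x.2 with h3 | h3
      · rw [h3, Function.update_of_ne hv.1]
        exact h v hv.2
      · rw [h3]; exact h v hv.2
    have h3 : ∑ x : Fin n × Fin q, w n t (S.erase x.1).card
        = q * ((S.card : ℝ) * w n t (S.card - 1) + ((n:ℝ) - S.card) * w n t S.card) := by
      rw [Fintype.sum_prod_type]
      simp only [Finset.sum_const, Finset.card_univ, Fintype.card_fin, nsmul_eq_mul]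
      rw [← Finset.mul_sum]
      congr 1
      have h4 : ∀ v : Fin n, w n t (S.erase v).card
          = (if v ∈ S then w n t (S.card - 1) else 0) + (if v ∈ Sᶜ then w n t S.card else 0) := by
        intro v
        by_cases hv : v ∈ S
        · rw [Finset.card_erase_of_mem hv]; simp [hv]
        · rw [Finset.erase_eq_of_notMem hv]; simp [hv]
      rw [Finset.sum_congr rfl (fun v _ => h4 v), Finset.sum_add_distrib, Finset.sum_ite_mem,
        Finset.sum_ite_mem, Finset.univ_inter, Finset.univ_inter, Finset.sum_const, Finset.sum_const,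
        Finset.card_compl, Fintype.card_fin, nsmul_eq_mul, nsmul_eq_mul]
      rw [Nat.cast_sub (by simpa using Finset.card_le_univ S)]
    rw [h1]
    have hn' : (0:ℝ) < n := by exact_mod_cast hn
    have hq' : (0:ℝ) < q := by exact_mod_cast hq
    rw [le_div_iff₀ (by positivity)]
    calc w n (t+1) S.card * ((n:ℝ) * q)
        = q * ((S.card : ℝ) * w n t (S.card - 1) + ((n:ℝ) - S.card) * w n t S.card) := by
          show ((S.card:ℝ) * w n t (S.card-1) + ((n:ℝ) - S.card) * w n t S.card) / n * ((n:ℝ) * q) = _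
          field_simp
      _ ≤ _ := by rw [← h3]; exact h2

lemma Ppow_row (hn : 0 < n) (hq : 0 < q) (t : ℕ) (σ : Col G q) : ∑ τ, (P G q ^ t) σ τ = 1 := by
  haveI : Nonempty (Fin n) := ⟨⟨0, hn⟩⟩
  induction t generalizing σ with
  | zero => simp [Matrix.one_apply]
  | succ t ih =>
    simp_rw [pow_succ', Matrix.mul_apply]
    rw [Finset.sum_comm]
    simp_rw [← Finset.mul_sum, ih, mul_one]
    exact P_row hq σ

lemma card_fiber (v : Fin n) (c : Fin q) :
    (q:ℝ) * ((Finset.univ.filter (fun τ : Col G q => τ.1 v = c)).card : ℝ)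
      = Fintype.card (Col G q) := by
  have h1 : ∀ c', (Finset.univ.filter (fun τ : Col G q => τ.1 v = c')).card
      = (Finset.univ.filter (fun τ : Col G q => τ.1 v = c)).card := by
    intro c'
    apply Finset.card_bij (fun τ _ => relab (Equiv.swap c' c) τ)
    · intro τ hτ
      rw [Finset.mem_filter] at hτ ⊢
      refine ⟨Finset.mem_univ _, ?_⟩
      show (Equiv.swap c' c) (τ.1 v) = c
      rw [hτ.2, Equiv.swap_apply_left]
    · intro a _ b _ h
      exact (relab (Equiv.swap c' c)).injective h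
    · intro τ hτ
      rw [Finset.mem_filter] at hτ
      refine ⟨relab (Equiv.swap c' c) τ, ?_, ?_⟩
      · rw [Finset.mem_filter]
        refine ⟨Finset.mem_univ _, ?_⟩
        show (Equiv.swap c' c) (τ.1 v) = c'
        rw [hτ.2, Equiv.swap_apply_right]
      · apply Subtype.ext
        funext u
        show (Equiv.swap c' c) ((Equiv.swap c' c) (τ.1 u)) = τ.1 u
        simp
  have h2 : (Fintype.card (Col G q)) = ∑ c' : Fin q, (Finset.univ.filter (fun τ : Col G q => τ.1 v = c')).card := by
    rw [← Finset.card_univ]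
    exact Finset.card_eq_sum_card_fiberwise (fun _ _ => Finset.mem_univ _)
  rw [h2, Finset.sum_congr rfl (fun c' _ => h1 c')]
  simp

lemma agr_sum_le (hq : 0 < q) (σ : Col G q) :
    ∑ τ : Col G q, agr σ τ * (1 / (Fintype.card (Col G q) : ℝ)) ≤ (n:ℝ) / q := by
  have hq' : (0:ℝ) < q := by exact_mod_cast hq
  have hN : (0:ℝ) < Fintype.card (Col G q) := by
    have : 0 < Fintype.card (Col G q) := Fintype.card_pos_iff.2 ⟨σ⟩
    exact_mod_cast this
  rw [← Finset.sum_mul, mul_one_div, div_le_div_iff₀ hN hq']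
  have h1 : ∀ τ : Col G q, agr σ τ ≤ ∑ v : Fin n, (if τ.1 v = σ.1 v then (1:ℝ) else 0) := by
    intro τ
    unfold agr
    split_ifs with h
    · obtain ⟨v, hv⟩ := h
      have h5 : (if τ.1 v = σ.1 v then (1:ℝ) else 0) ≤ ∑ v : Fin n, (if τ.1 v = σ.1 v then (1:ℝ) else 0) :=
        Finset.single_le_sum (f := fun v => if τ.1 v = σ.1 v then (1:ℝ) else 0)
          (fun i _ => by positivity) (Finset.mem_univ v)
      rw [if_pos hv] at h5
      exact h5
    · exact Finset.sum_nonneg (fun i _ => by split_ifs <;> norm_num)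
  have h2 : ∑ τ : Col G q, agr σ τ ≤ ∑ v : Fin n, ((Finset.univ.filter (fun τ : Col G q => τ.1 v = σ.1 v)).card : ℝ) := by
    calc ∑ τ : Col G q, agr σ τ ≤ ∑ τ : Col G q, ∑ v : Fin n, (if τ.1 v = σ.1 v then (1:ℝ) else 0) :=
          Finset.sum_le_sum (fun τ _ => h1 τ)
      _ = ∑ v : Fin n, ∑ τ : Col G q, (if τ.1 v = σ.1 v then (1:ℝ) else 0) := Finset.sum_comm
      _ = _ := by
          apply Finset.sum_congr rfl
          intro v _
          simp
  calc (∑ τ : Col G q, agr σ τ) * q
      ≤ (∑ v : Fin n, ((Finset.univ.filter (fun τ : Col G q => τ.1 v = σ.1 v)).card : ℝ)) * q :=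
        mul_le_mul_of_nonneg_right h2 hq'.le
    _ = ∑ v : Fin n, (Fintype.card (Col G q) : ℝ) := by
        rw [Finset.sum_mul]
        apply Finset.sum_congr rfl
        intro v _
        rw [mul_comm, card_fiber]
    _ = n * (Fintype.card (Col G q) : ℝ) := by simp

/-- lower bound on the distance: coupon collector minus the chance of an accidental agreement -/
lemma tv_ge (hn : 0 < n) (hq : 0 < q) (t : ℕ) (σ : Col G q) :
    w n t n - (n:ℝ) / q ≤ tv G q t σ := by
  have hN : (0:ℝ) < Fintype.card (Col G q) := by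
    have : 0 < Fintype.card (Col G q) := Fintype.card_pos_iff.2 ⟨σ⟩
    exact_mod_cast this
  have h1 := w_le hn hq σ t Finset.univ σ (fun v _ => rfl)
  rw [Finset.card_univ, Fintype.card_fin] at h1
  have h2 := agr_sum_le hq σ
  set N := (Fintype.card (Col G q) : ℝ) with hNdef
  have h3 : ∑ τ : Col G q, ((P G q ^ t) σ τ - 1 / N) = 0 := by
    rw [Finset.sum_sub_distrib, Ppow_row hn hq]
    simp only [Finset.sum_const, Finset.card_univ, nsmul_eq_mul]
    rw [← hNdef]
    field_simp
    simp
  have h4 : ∑ τ : Col G q, agr σ τ * ((P G q ^ t) σ τ - 1 / N) ≤ tv G q t σ := by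
    have h5 : ∑ τ : Col G q, agr σ τ * ((P G q ^ t) σ τ - 1 / N)
        = ∑ τ : Col G q, (agr σ τ - 1/2) * ((P G q ^ t) σ τ - 1 / N) := by
      have : ∑ τ : Col G q, (agr σ τ - 1/2) * ((P G q ^ t) σ τ - 1 / N)
          = ∑ τ : Col G q, agr σ τ * ((P G q ^ t) σ τ - 1 / N)
            - (1/2) * ∑ τ : Col G q, ((P G q ^ t) σ τ - 1 / N) := by
        rw [Finset.mul_sum, ← Finset.sum_sub_distrib]
        apply Finset.sum_congr rfl
        intro τ _
        ring
      rw [this, h3]; ring
    rw [h5]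
    unfold tv
    rw [Finset.mul_sum]
    apply Finset.sum_le_sum
    intro τ _
    have h6 : |agr σ τ - 1/2| ≤ 1/2 := by
      unfold agr
      split_ifs <;> norm_num
      all_goals (rw [abs_le]; constructor <;> norm_num)
    calc (agr σ τ - 1/2) * ((P G q ^ t) σ τ - 1 / N)
        ≤ |(agr σ τ - 1/2) * ((P G q ^ t) σ τ - 1 / N)| := le_abs_self _
      _ = |agr σ τ - 1/2| * |(P G q ^ t) σ τ - 1 / N| := abs_mul _ _
      _ ≤ 1/2 * |(P G q ^ t) σ τ - 1 / N| := mul_le_mul_of_nonneg_right h6 (abs_nonneg _)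
  have h7 : ∑ τ : Col G q, agr σ τ * ((P G q ^ t) σ τ - 1 / N)
      = ∑ τ : Col G q, (P G q ^ t) σ τ * agr σ τ - ∑ τ : Col G q, agr σ τ * (1 / N) := by
    rw [← Finset.sum_sub_distrib]
    apply Finset.sum_congr rfl
    intro τ _
    ring
  linarith

lemma w84 : w 4 8 4 = 3089 / 8192 := by
  norm_num [w]

end lower

end Pool.Agent.H979R2.Glauber
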