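import Pool.Agent.H979R2.GlauberPack

set_option autoImplicit false

namespace Pool.Agent.H979R2.Glauber

theorem num0101 : tvs (itN (pack (initf 0 1 0 1)) 8) * 10000 ≤ 3678 * (2 * 1512 * 28^8) := by
  decide +kernel

theorem num0102 : tvs (itN (pack (initf 0 1 0 2)) 8) * 10000 ≤ 3678 * (2 * 1512 * 28^8) := by
  decide +kernel

theorem num0120 : tvs (itN (pack (initf 0 1 2 0)) 8) * 10000 ≤ 3678 * (2 * 1512 * 28^8) := by
  decide +kernel

theorem num0121 : tvs (itN (pack (initf 0 1 2 1)) 8) * 10000 ≤ 3678 * (2 * 1512 * 28^8) := by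
  decide +kernel

theorem num0123 : tvs (itN (pack (initf 0 1 2 3)) 8) * 10000 ≤ 3678 * (2 * 1512 * 28^8) := by
  decide +kernel

end Pool.Agent.H979R2.Glauber
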