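import Mathlib

set_option autoImplicit false

namespace Pool.Agent.H979R2.Glauber

/-! Packed vectors indexed by four digits in base seven, and eight steps of the counting recursion
for the path on four vertices with seven colours. -/

def s7 (g : ℕ → ℕ) : ℕ := g 0 + g 1 + g 2 + g 3 + g 4 + g 5 + g 6

def p7 (g : ℕ → ℕ) (s : ℕ) : ℕ :=
  g 0 + (g 1) <<< s + (g 2) <<< (2*s) + (g 3) <<< (3*s) + (g 4) <<< (4*s) + (g 5) <<< (5*s) + (g 6) <<< (6*s)

def rd (s i N : ℕ) : ℕ := (N >>> (i*s)) % 2^s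

def dig (N a b c d : ℕ) : ℕ := rd 48 d (rd 336 c (rd 2352 b (rd 16464 a N)))

def pack (f : ℕ → ℕ → ℕ → ℕ → ℕ) : ℕ :=
  p7 (fun a => p7 (fun b => p7 (fun c => p7 (fun d => f a b c d) 48) 336) 2352) 16464

def stepf (f : ℕ → ℕ → ℕ → ℕ → ℕ) (a b c d : ℕ) : ℕ :=
  if a = b ∨ b = c ∨ c = d then 0 else
    s7 (fun x => f x b c d) + s7 (fun x => f a x c d) + s7 (fun x => f a b x d)
      + s7 (fun x => f a b c x) + (2 + (if a = c then 1 else 2) + (if b = d then 1 else 2)) * f a b c d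

def stepN (N : ℕ) : ℕ := pack (stepf (dig N))

def initf (a0 b0 c0 d0 : ℕ) (a b c d : ℕ) : ℕ :=
  if a = a0 ∧ b = b0 ∧ c = c0 ∧ d = d0 then 1 else 0

def itN (N : ℕ) : ℕ → ℕ
  | 0 => N
  | (t+1) => stepN (itN N t)

def adiff (x y : ℕ) : ℕ := (x - y) + (y - x)

def tvs (N : ℕ) : ℕ := s7 fun a => s7 fun b => s7 fun c => s7 fun d =>
  if a = b ∨ b = c ∨ c = d then 0 else adiff (1512 * dig N a b c d) (28^8)

lemma p7_lt (g : ℕ → ℕ) (s : ℕ) (h : ∀ i < 7, g i < 2^s) : p7 g s < 2^(7*s) := by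
  have h0 := h 0 (by norm_num)
  have h1 := h 1 (by norm_num)
  have h2 := h 2 (by norm_num)
  have h3 := h 3 (by norm_num)
  have h4 := h 4 (by norm_num)
  have h5 := h 5 (by norm_num)
  have h6 := h 6 (by norm_num)
  have step : ∀ x y M B : ℕ, x < M → y < B → x + y * M < M * B := by
    intro x y M B hx hy
    calc x + y * M < M + y * M := by omega
      _ = M * (y + 1) := by ring
      _ ≤ M * B := Nat.mul_le_mul_left _ hy
  unfold p7
  simp only [Nat.shiftLeft_eq]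
  have e : ∀ k, 2^((k+1)*s) = 2^(k*s) * 2^s := by
    intro k; rw [← pow_add]; congr 1; ring
  have a1 := step (g 0) (g 1) (2^s) (2^s) h0 h1
  have e2 : 2^s * 2^s = 2^(2*s) := by rw [← pow_add]; congr 1; ring
  rw [e2] at a1
  have a2 := step _ (g 2) (2^(2*s)) (2^s) a1 h2
  rw [← e 2] at a2
  have a3 := step _ (g 3) (2^((2+1)*s)) (2^s) a2 h3
  rw [← e (2+1)] at a3
  have a4 := step _ (g 4) (2^((2+1+1)*s)) (2^s) a3 h4
  rw [← e (2+1+1)] at a4
  have a5 := step _ (g 5) (2^((2+1+1+1)*s)) (2^s) a4 h5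
  rw [← e (2+1+1+1)] at a5
  have a6 := step _ (g 6) (2^((2+1+1+1+1)*s)) (2^s) a5 h6
  rw [← e (2+1+1+1+1)] at a6
  exact a6

lemma rd_p7 (g : ℕ → ℕ) (s : ℕ) (h : ∀ i < 7, g i < 2^s) (i : ℕ) (hi : i < 7) :
    rd s i (p7 g s) = g i := by
  have h0 := h 0 (by norm_num)
  have h1 := h 1 (by norm_num)
  have h2 := h 2 (by norm_num)
  have h3 := h 3 (by norm_num)
  have h4 := h 4 (by norm_num)
  have h5 := h 5 (by norm_num)
  have h6 := h 6 (by norm_num)
  have key : p7 g s = g 0 + 2^s * (g 1 + 2^s * (g 2 + 2^s * (g 3 + 2^s * (g 4 + 2^s * (g 5 + 2^s * g 6))))) := by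
    unfold p7
    simp only [Nat.shiftLeft_eq]
    have e : ∀ k, 2^(k*s) = (2^s)^k := by intro k; rw [← pow_mul, mul_comm]
    rw [e 2, e 3, e 4, e 5, e 6]
    ring
  have hpos : 0 < 2^s := by positivity
  unfold rd
  rw [Nat.shiftRight_eq_div_pow, key]
  have e : ∀ k, 2^(k*s) = (2^s)^k := by intro k; rw [← pow_mul, mul_comm]
  rw [e i]
  set B := 2^s with hB
  have d1 : ∀ x y : ℕ, x < B → (x + B * y) / B = y := by
    intro x y hx
    rw [Nat.add_mul_div_left _ _ hpos, Nat.div_eq_of_lt hx, zero_add]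
  have m1 : ∀ x y : ℕ, x < B → (x + B * y) % B = x := by
    intro x y hx
    rw [Nat.add_mul_mod_self_left, Nat.mod_eq_of_lt hx]
  have dd : ∀ (z k : ℕ), z / B^(k+1) = (z / B) / B^k := by
    intro z k
    rw [Nat.div_div_eq_div_mul, pow_succ, mul_comm (B^k) B]
  interval_cases i
  · rw [pow_zero, Nat.div_one]; exact m1 _ _ h0
  · rw [dd, d1 _ _ h0, pow_zero, Nat.div_one]; exact m1 _ _ h1
  · rw [dd, d1 _ _ h0, dd, d1 _ _ h1, pow_zero, Nat.div_one]; exact m1 _ _ h2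
  · rw [dd, d1 _ _ h0, dd, d1 _ _ h1, dd, d1 _ _ h2, pow_zero, Nat.div_one]; exact m1 _ _ h3
  · rw [dd, d1 _ _ h0, dd, d1 _ _ h1, dd, d1 _ _ h2, dd, d1 _ _ h3, pow_zero, Nat.div_one]
    exact m1 _ _ h4
  · rw [dd, d1 _ _ h0, dd, d1 _ _ h1, dd, d1 _ _ h2, dd, d1 _ _ h3, dd, d1 _ _ h4, pow_zero,
      Nat.div_one]
    exact m1 _ _ h5
  · rw [dd, d1 _ _ h0, dd, d1 _ _ h1, dd, d1 _ _ h2, dd, d1 _ _ h3, dd, d1 _ _ h4, dd, d1 _ _ h5,
      pow_zero, Nat.div_one]
    exact Nat.mod_eq_of_lt h6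

lemma dig_pack (f : ℕ → ℕ → ℕ → ℕ → ℕ)
    (h : ∀ a b c d, a < 7 → b < 7 → c < 7 → d < 7 → f a b c d < 2^48)
    (a b c d : ℕ) (ha : a < 7) (hb : b < 7) (hc : c < 7) (hd : d < 7) :
    dig (pack f) a b c d = f a b c d := by
  unfold dig pack
  have l1 : ∀ a b c, a < 7 → b < 7 → c < 7 → p7 (fun d => f a b c d) 48 < 2^336 := by
    intro a b c ha hb hc
    exact p7_lt _ 48 (fun d hd => h a b c d ha hb hc hd)
  have l2 : ∀ a b, a < 7 → b < 7 → p7 (fun c => p7 (fun d => f a b c d) 48) 336 < 2^2352 := by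
    intro a b ha hb
    exact p7_lt _ 336 (fun c hc => l1 a b c ha hb hc)
  have l3 : ∀ a, a < 7 → p7 (fun b => p7 (fun c => p7 (fun d => f a b c d) 48) 336) 2352 < 2^16464 := by
    intro a ha
    exact p7_lt _ 2352 (fun b hb => l2 a b ha hb)
  rw [rd_p7 _ 16464 (fun i hi => l3 i hi) a ha, rd_p7 _ 2352 (fun i hi => l2 a i ha hi) b hb,
    rd_p7 _ 336 (fun i hi => l1 a b i ha hb hi) c hc, rd_p7 _ 48 (fun i hi => h a b c i ha hb hc hi) d hd]

lemma stepf_le (f : ℕ → ℕ → ℕ → ℕ → ℕ) (K : ℕ)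
    (h : ∀ a b c d, a < 7 → b < 7 → c < 7 → d < 7 → f a b c d ≤ K)
    (a b c d : ℕ) (ha : a < 7) (hb : b < 7) (hc : c < 7) (hd : d < 7) :
    stepf f a b c d ≤ 34 * K := by
  unfold stepf
  split_ifs with h1 h2 h3 h3
  · exact Nat.zero_le _
  all_goals
    have k1 : ∀ g : ℕ → ℕ, (∀ x < 7, g x ≤ K) → s7 g ≤ 7 * K := by
      intro g hg
      unfold s7
      have := hg 0 (by norm_num); have := hg 1 (by norm_num); have := hg 2 (by norm_num)
      have := hg 3 (by norm_num); have := hg 4 (by norm_num); have := hg 5 (by norm_num)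
      have := hg 6 (by norm_num)
      omega
    have q1 := k1 (fun x => f x b c d) (fun x hx => h x b c d hx hb hc hd)
    have q2 := k1 (fun x => f a x c d) (fun x hx => h a x c d ha hx hc hd)
    have q3 := k1 (fun x => f a b x d) (fun x hx => h a b x d ha hb hx hd)
    have q4 := k1 (fun x => f a b c x) (fun x hx => h a b c x ha hb hc hx)
    have q5 := h a b c d ha hb hc hd
    omega

/-- the true counting functions -/
def cnt (a0 b0 c0 d0 : ℕ) : ℕ → ℕ → ℕ → ℕ → ℕ → ℕ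
  | 0 => initf a0 b0 c0 d0
  | (t+1) => stepf (cnt a0 b0 c0 d0 t)

lemma stepf_congr (f g : ℕ → ℕ → ℕ → ℕ → ℕ)
    (h : ∀ a b c d, a < 7 → b < 7 → c < 7 → d < 7 → f a b c d = g a b c d)
    (a b c d : ℕ) (ha : a < 7) (hb : b < 7) (hc : c < 7) (hd : d < 7) :
    stepf f a b c d = stepf g a b c d := by
  unfold stepf s7
  simp only [h _ b c d (by norm_num : 0 < 7) hb hc hd, h _ b c d (by norm_num : 1 < 7) hb hc hd,
    h _ b c d (by norm_num : 2 < 7) hb hc hd, h _ b c d (by norm_num : 3 < 7) hb hc hd,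
    h _ b c d (by norm_num : 4 < 7) hb hc hd, h _ b c d (by norm_num : 5 < 7) hb hc hd,
    h _ b c d (by norm_num : 6 < 7) hb hc hd,
    h a _ c d ha (by norm_num : 0 < 7) hc hd, h a _ c d ha (by norm_num : 1 < 7) hc hd,
    h a _ c d ha (by norm_num : 2 < 7) hc hd, h a _ c d ha (by norm_num : 3 < 7) hc hd,
    h a _ c d ha (by norm_num : 4 < 7) hc hd, h a _ c d ha (by norm_num : 5 < 7) hc hd,
    h a _ c d ha (by norm_num : 6 < 7) hc hd,
    h a b _ d ha hb (by norm_num : 0 < 7) hd, h a b _ d ha hb (by norm_num : 1 < 7) hd,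
    h a b _ d ha hb (by norm_num : 2 < 7) hd, h a b _ d ha hb (by norm_num : 3 < 7) hd,
    h a b _ d ha hb (by norm_num : 4 < 7) hd, h a b _ d ha hb (by norm_num : 5 < 7) hd,
    h a b _ d ha hb (by norm_num : 6 < 7) hd,
    h a b c _ ha hb hc (by norm_num : 0 < 7), h a b c _ ha hb hc (by norm_num : 1 < 7),
    h a b c _ ha hb hc (by norm_num : 2 < 7), h a b c _ ha hb hc (by norm_num : 3 < 7),
    h a b c _ ha hb hc (by norm_num : 4 < 7), h a b c _ ha hb hc (by norm_num : 5 < 7),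
    h a b c _ ha hb hc (by norm_num : 6 < 7), h a b c d ha hb hc hd]

lemma cnt_le (a0 b0 c0 d0 t : ℕ) : ∀ a b c d, a < 7 → b < 7 → c < 7 → d < 7 →
    cnt a0 b0 c0 d0 t a b c d ≤ 34^t := by
  induction t with
  | zero =>
    intro a b c d _ _ _ _
    unfold cnt initf
    split_ifs <;> norm_num
  | succ t ih =>
    intro a b c d ha hb hc hd
    have := stepf_le _ _ ih a b c d ha hb hc hd
    rw [pow_succ']
    exact this

lemma dig_itN (a0 b0 c0 d0 t : ℕ) (ht : t ≤ 8) : ∀ a b c d, a < 7 → b < 7 → c < 7 → d < 7 →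
    dig (itN (pack (initf a0 b0 c0 d0)) t) a b c d = cnt a0 b0 c0 d0 t a b c d := by
  induction t with
  | zero =>
    intro a b c d ha hb hc hd
    unfold itN cnt
    apply dig_pack _ _ a b c d ha hb hc hd
    intro a b c d _ _ _ _
    unfold initf
    split_ifs <;> norm_num
  | succ t ih =>
    intro a b c d ha hb hc hd
    have ih' := ih (by omega)
    show dig (pack (stepf (dig (itN (pack (initf a0 b0 c0 d0)) t)))) a b c d = stepf (cnt a0 b0 c0 d0 t) a b c d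
    have e : ∀ a b c d, a < 7 → b < 7 → c < 7 → d < 7 →
        stepf (dig (itN (pack (initf a0 b0 c0 d0)) t)) a b c d = stepf (cnt a0 b0 c0 d0 t) a b c d :=
      fun a b c d ha hb hc hd => stepf_congr _ _ ih' a b c d ha hb hc hd
    rw [dig_pack _ _ a b c d ha hb hc hd, e a b c d ha hb hc hd]
    intro a b c d ha hb hc hd
    rw [e a b c d ha hb hc hd]
    have h1 := cnt_le a0 b0 c0 d0 (t+1) a b c d ha hb hc hd
    have h2 : (34:ℕ)^(t+1) ≤ 34^8 := Nat.pow_le_pow_right (by norm_num) ht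
    have h3 : (34:ℕ)^8 < 2^48 := by norm_num
    exact lt_of_le_of_lt (h1.trans h2) h3

/-- the sum of deviations computed from the true counts -/
def dev (f : ℕ → ℕ → ℕ → ℕ → ℕ) : ℕ := s7 fun a => s7 fun b => s7 fun c => s7 fun d =>
  if a = b ∨ b = c ∨ c = d then 0 else adiff (1512 * f a b c d) (28^8)

lemma s7_congr (f g : ℕ → ℕ) (h : ∀ i < 7, f i = g i) : s7 f = s7 g := by
  unfold s7
  rw [h 0 (by norm_num), h 1 (by norm_num), h 2 (by norm_num), h 3 (by norm_num), h 4 (by norm_num),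
    h 5 (by norm_num), h 6 (by norm_num)]

lemma tvs_eq (a0 b0 c0 d0 : ℕ) :
    tvs (itN (pack (initf a0 b0 c0 d0)) 8) = dev (cnt a0 b0 c0 d0 8) := by
  unfold tvs dev
  apply s7_congr; intro a ha
  apply s7_congr; intro b hb
  apply s7_congr; intro c hc
  apply s7_congr; intro d hd
  rw [dig_itN a0 b0 c0 d0 8 le_rfl a b c d ha hb hc hd]

end Pool.Agent.H979R2.Glauber
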