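import Pool.Agent.H979R2.GlauberLower
import Pool.Agent.H979R2.GlauberNum

set_option autoImplicit false
open Finset

namespace Pool.Agent.H979R2.Glauber

open Classical

lemma proper_iff (q : ℕ) (σ : Fin 4 → Fin q) : Proper (SimpleGraph.pathGraph 4) q σ ↔
    σ 0 ≠ σ 1 ∧ σ 1 ≠ σ 2 ∧ σ 2 ≠ σ 3 := by
  constructor
  · intro h
    refine ⟨h 0 1 ?_, h 1 2 ?_, h 2 3 ?_⟩ <;> simp [SimpleGraph.pathGraph_adj]
  · rintro ⟨h1, h2, h3⟩ u v huv
    rw [SimpleGraph.pathGraph_adj] at huv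
    fin_cases u <;> fin_cases v <;> simp at huv <;>
      first
      | exact h1
      | exact h1.symm
      | exact h2
      | exact h2.symm
      | exact h3
      | exact h3.symm

/-- evaluation of a function of four natural numbers at a colouring -/
def ev (f : ℕ → ℕ → ℕ → ℕ → ℕ) (ρ : Col (SimpleGraph.pathGraph 4) 7) : ℕ :=
  f (ρ.1 0) (ρ.1 1) (ρ.1 2) (ρ.1 3)

lemma sum7 (g : ℕ → ℕ) : ∑ x : Fin 7, g x.val = s7 g := by
  rw [Fin.sum_univ_seven]
  rfl

lemma blocked1 (a : Fin 7) (K : ℕ) : ∑ x : Fin 7, (if x = a then K else 0) = 1 * K := by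
  simp

lemma blocked2 (a b : Fin 7) (K : ℕ) : ∑ x : Fin 7, (if x = a ∨ x = b then K else 0)
    = (if (a : ℕ) = (b : ℕ) then 1 else 2) * K := by
  by_cases h : a = b
  · subst h; simp
  · have h' : ¬ ((a : ℕ) = (b : ℕ)) := fun h2 => h (Fin.ext h2)
    rw [if_neg h']
    have : ∀ x : Fin 7, (if x = a ∨ x = b then K else 0)
        = (if x = a then K else 0) + (if x = b then K else 0) := by
      intro x
      by_cases h1 : x = a
      · subst h1; simp [h]
      · simp [h1]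
    rw [Finset.sum_congr rfl (fun x _ => this x), Finset.sum_add_distrib]
    simp
    ring

lemma ev_move (f : ℕ → ℕ → ℕ → ℕ → ℕ) (τ : Col (SimpleGraph.pathGraph 4) 7) (v : Fin 4) (x : Fin 7)
    (h : Proper (SimpleGraph.pathGraph 4) 7 (Function.update τ.1 v x)) :
    ev f (move _ 7 τ v x) = f (Function.update τ.1 v x 0) (Function.update τ.1 v x 1)
      (Function.update τ.1 v x 2) (Function.update τ.1 v x 3) := by
  unfold move ev
  rw [dif_pos h]

lemma ev_move' (f : ℕ → ℕ → ℕ → ℕ → ℕ) (τ : Col (SimpleGraph.pathGraph 4) 7) (v : Fin 4) (x : Fin 7)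
    (h : ¬ Proper (SimpleGraph.pathGraph 4) 7 (Function.update τ.1 v x)) :
    ev f (move _ 7 τ v x) = ev f τ := by
  unfold move
  rw [dif_neg h]

lemma sum_move (f : ℕ → ℕ → ℕ → ℕ → ℕ)
    (hf : ∀ a b c d, (a = b ∨ b = c ∨ c = d) → f a b c d = 0)
    (τ : Col (SimpleGraph.pathGraph 4) 7) :
    ∑ x : Fin 4 × Fin 7, ev f (move _ 7 τ x.1 x.2)
      = stepf f (τ.1 0) (τ.1 1) (τ.1 2) (τ.1 3) := by
  have hp := (proper_iff 7 τ.1).1 τ.2
  obtain ⟨p1, p2, p3⟩ := hp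
  have p1' : ¬ ((τ.1 0 : ℕ) = (τ.1 1 : ℕ)) := fun h => p1 (Fin.ext h)
  have p2' : ¬ ((τ.1 1 : ℕ) = (τ.1 2 : ℕ)) := fun h => p2 (Fin.ext h)
  have p3' : ¬ ((τ.1 2 : ℕ) = (τ.1 3 : ℕ)) := fun h => p3 (Fin.ext h)
  rw [Fintype.sum_prod_type, Fin.sum_univ_four]
  have h0 : ∑ x : Fin 7, ev f (move _ 7 τ 0 x)
      = s7 (fun x => f x (τ.1 1) (τ.1 2) (τ.1 3)) + 1 * ev f τ := by
    rw [← sum7, ← blocked1 (τ.1 1), ← Finset.sum_add_distrib]
    apply Finset.sum_congr rfl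
    intro x _
    by_cases hx : x = τ.1 1
    · rw [if_pos hx, ev_move', hf _ _ _ _ (Or.inl (by rw [hx])), zero_add]
      rw [proper_iff]
      rintro ⟨h, -⟩
      apply h
      simp [hx]
    · rw [if_neg hx, add_zero, ev_move]
      · simp
      · rw [proper_iff]
        refine ⟨?_, ?_, ?_⟩
        · simpa using hx
        · simpa using p2
        · simpa using p3
  have h1 : ∑ x : Fin 7, ev f (move _ 7 τ 1 x)
      = s7 (fun x => f (τ.1 0) x (τ.1 2) (τ.1 3))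
        + (if (τ.1 0 : ℕ) = (τ.1 2 : ℕ) then 1 else 2) * ev f τ := by
    rw [← sum7, ← blocked2 (τ.1 0) (τ.1 2), ← Finset.sum_add_distrib]
    apply Finset.sum_congr rfl
    intro x _
    by_cases hx : x = τ.1 0 ∨ x = τ.1 2
    · rw [if_pos hx, ev_move', hf _ _ _ _ ?_, zero_add]
      · rcases hx with hx | hx
        · left; rw [hx]
        · right; left; rw [hx]
      · rw [proper_iff]
        rintro ⟨h, h', -⟩
        rcases hx with hx | hx
        · apply h; simp [hx]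
        · apply h'; simp [hx]
    · push Not at hx
      rw [if_neg (by push Not; exact hx), add_zero, ev_move]
      · simp
      · rw [proper_iff]
        refine ⟨?_, ?_, ?_⟩
        · simpa using hx.1.symm
        · simpa using hx.2
        · simpa using p3
  have h2 : ∑ x : Fin 7, ev f (move _ 7 τ 2 x)
      = s7 (fun x => f (τ.1 0) (τ.1 1) x (τ.1 3))
        + (if (τ.1 1 : ℕ) = (τ.1 3 : ℕ) then 1 else 2) * ev f τ := by
    rw [← sum7, ← blocked2 (τ.1 1) (τ.1 3), ← Finset.sum_add_distrib]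
    apply Finset.sum_congr rfl
    intro x _
    by_cases hx : x = τ.1 1 ∨ x = τ.1 3
    · rw [if_pos hx, ev_move', hf _ _ _ _ ?_, zero_add]
      · rcases hx with hx | hx
        · right; left; rw [hx]
        · right; right; rw [hx]
      · rw [proper_iff]
        rintro ⟨-, h, h'⟩
        rcases hx with hx | hx
        · apply h; simp [hx]
        · apply h'; simp [hx]
    · push Not at hx
      rw [if_neg (by push Not; exact hx), add_zero, ev_move]
      · simp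
      · rw [proper_iff]
        refine ⟨?_, ?_, ?_⟩
        · simpa using p1
        · simpa using hx.1.symm
        · simpa using hx.2
  have h3 : ∑ x : Fin 7, ev f (move _ 7 τ 3 x)
      = s7 (fun x => f (τ.1 0) (τ.1 1) (τ.1 2) x) + 1 * ev f τ := by
    rw [← sum7, ← blocked1 (τ.1 2), ← Finset.sum_add_distrib]
    apply Finset.sum_congr rfl
    intro x _
    by_cases hx : x = τ.1 2
    · rw [if_pos hx, ev_move', hf _ _ _ _ (Or.inr (Or.inr (by rw [hx]))), zero_add]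
      rw [proper_iff]
      rintro ⟨-, -, h⟩
      apply h
      simp [hx]
    · rw [if_neg hx, add_zero, ev_move]
      · simp
      · rw [proper_iff]
        refine ⟨?_, ?_, ?_⟩
        · simpa using p1
        · simpa using p2
        · simpa using (Ne.symm hx)
  rw [h0, h1, h2, h3]
  unfold stepf
  have hn : ¬ ((τ.1 0 : ℕ) = (τ.1 1 : ℕ) ∨ (τ.1 1 : ℕ) = (τ.1 2 : ℕ) ∨ (τ.1 2 : ℕ) = (τ.1 3 : ℕ)) := by
    rintro (h | h | h)
    · exact p1' h
    · exact p2' h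
    · exact p3' h
  rw [if_neg hn]
  unfold ev
  ring

lemma cnt_improper (a0 b0 c0 d0 : ℕ) (h0 : ¬ (a0 = b0 ∨ b0 = c0 ∨ c0 = d0)) (t : ℕ) :
    ∀ a b c d, (a = b ∨ b = c ∨ c = d) → cnt a0 b0 c0 d0 t a b c d = 0 := by
  intro a b c d h
  cases t with
  | zero =>
    unfold cnt initf
    rw [if_neg]
    rintro ⟨rfl, rfl, rfl, rfl⟩
    exact h0 h
  | succ t =>
    show stepf _ a b c d = 0
    unfold stepf
    rw [if_pos h]

lemma Ppow_eq_cnt (σ : Col (SimpleGraph.pathGraph 4) 7) (t : ℕ) :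
    ∀ τ : Col (SimpleGraph.pathGraph 4) 7, (P _ 7 ^ t) τ σ
      = (ev (cnt (σ.1 0) (σ.1 1) (σ.1 2) (σ.1 3) t) τ : ℝ) / 28 ^ t := by
  have hp := (proper_iff 7 σ.1).1 σ.2
  obtain ⟨p1, p2, p3⟩ := hp
  have p1' : ¬ ((σ.1 0 : ℕ) = (σ.1 1 : ℕ)) := fun h => p1 (Fin.ext h)
  have p2' : ¬ ((σ.1 1 : ℕ) = (σ.1 2 : ℕ)) := fun h => p2 (Fin.ext h)
  have p3' : ¬ ((σ.1 2 : ℕ) = (σ.1 3 : ℕ)) := fun h => p3 (Fin.ext h)
  induction t with
  | zero =>
    intro τ
    rw [pow_zero, pow_zero, div_one, Matrix.one_apply]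
    unfold ev cnt initf
    by_cases h : τ = σ
    · subst h; simp
    · rw [if_neg h, if_neg]
      · simp
      · rintro ⟨h0, h1, h2, h3⟩
        apply h
        apply Subtype.ext
        funext i
        fin_cases i
        · exact Fin.ext h0
        · exact Fin.ext h1
        · exact Fin.ext h2
        · exact Fin.ext h3
  | succ t ih =>
    intro τ
    rw [Ppow_succ]
    simp_rw [ih]
    rw [← Finset.sum_div, ← Nat.cast_sum, sum_move _ (cnt_improper _ _ _ _ (by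
      push Not; exact ⟨p1', p2', p3'⟩) t) τ]
    show _ = ((stepf (cnt (σ.1 0) (σ.1 1) (σ.1 2) (σ.1 3) t) (τ.1 0) (τ.1 1) (τ.1 2) (τ.1 3) : ℕ) : ℝ)
      / 28 ^ (t+1)
    rw [Fintype.card_fin, pow_succ, div_div]
    norm_num

/-- functions on four vertices as quadruples -/
def quad (α : Type) : (Fin 4 → α) ≃ α × α × α × α where
  toFun f := (f 0, f 1, f 2, f 3)
  invFun x := ![x.1, x.2.1, x.2.2.1, x.2.2.2]
  left_inv f := by
    funext i
    fin_cases i <;> rfl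
  right_inv x := rfl

lemma sum_col (g : ℕ → ℕ → ℕ → ℕ → ℕ) :
    ∑ τ : Col (SimpleGraph.pathGraph 4) 7, g (τ.1 0) (τ.1 1) (τ.1 2) (τ.1 3)
      = s7 fun a => s7 fun b => s7 fun c => s7 fun d =>
          if a = b ∨ b = c ∨ c = d then 0 else g a b c d := by
  rw [← Finset.sum_subtype (Finset.univ.filter (fun σ : Fin 4 → Fin 7 => Proper (SimpleGraph.pathGraph 4) 7 σ))
    (by simp) (fun σ => g (σ 0) (σ 1) (σ 2) (σ 3)), Finset.sum_filter,
    ← (quad (Fin 7)).symm.sum_comp, Fintype.sum_prod_type]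
  simp_rw [← sum7]
  apply Finset.sum_congr rfl
  intro a _
  rw [Fintype.sum_prod_type]
  apply Finset.sum_congr rfl
  intro b _
  rw [Fintype.sum_prod_type]
  apply Finset.sum_congr rfl
  intro c _
  apply Finset.sum_congr rfl
  intro d _
  have e : Proper (SimpleGraph.pathGraph 4) 7 ((quad (Fin 7)).symm (a, b, c, d)) ↔
      ¬ ((a:ℕ) = b ∨ (b:ℕ) = c ∨ (c:ℕ) = d) := by
    rw [proper_iff]
    push Not
    simp only [quad, ne_eq, Fin.ext_iff]
    rfl
  by_cases h : ((a:ℕ) = b ∨ (b:ℕ) = c ∨ (c:ℕ) = d)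
  · rw [if_pos h, if_neg (by rw [e]; exact fun h2 => h2 h)]
  · rw [if_neg h, if_pos (e.2 h)]
    rfl

lemma card_col : Fintype.card (Col (SimpleGraph.pathGraph 4) 7) = 1512 := by
  have h := sum_col (fun _ _ _ _ => 1)
  simp only [Finset.sum_const, Finset.card_univ, smul_eq_mul, mul_one] at h
  rw [h]
  decide +kernel

lemma adiff_cast (x y : ℕ) : ((adiff x y : ℕ) : ℝ) = |(x:ℝ) - y| := by
  unfold adiff
  rcases le_total x y with h | h
  · have h' : (x:ℝ) ≤ y := by exact_mod_cast h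
    rw [Nat.sub_eq_zero_of_le h, zero_add, Nat.cast_sub h, abs_of_nonpos (by linarith)]
    ring
  · have h' : (y:ℝ) ≤ x := by exact_mod_cast h
    rw [Nat.sub_eq_zero_of_le h, add_zero, Nat.cast_sub h, abs_of_nonneg (by linarith)]

lemma tv_eq (σ : Col (SimpleGraph.pathGraph 4) 7) :
    tv _ 7 8 σ = (dev (cnt (σ.1 0) (σ.1 1) (σ.1 2) (σ.1 3) 8) : ℝ) / (2 * 1512 * 28 ^ 8) := by
  unfold tv
  rw [card_col]
  have h1 : ∀ τ : Col (SimpleGraph.pathGraph 4) 7, |(P _ 7 ^ 8) σ τ - 1 / ((1512 : ℕ) : ℝ)|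
      = (adiff (1512 * cnt (σ.1 0) (σ.1 1) (σ.1 2) (σ.1 3) 8 (τ.1 0) (τ.1 1) (τ.1 2) (τ.1 3)) (28^8) : ℝ)
        / (1512 * 28 ^ 8) := by
    intro τ
    rw [Ppow_symm, Ppow_eq_cnt]
    unfold ev
    set m := cnt (σ.1 0) (σ.1 1) (σ.1 2) (σ.1 3) 8 (τ.1 0) (τ.1 1) (τ.1 2) (τ.1 3)
    have h2 : ((m:ℝ) / 28 ^ 8 - 1 / ((1512:ℕ):ℝ)) = (1512 * (m:ℝ) - 28^8) / (1512 * 28 ^ 8) := by
      push_cast
      field_simp
    rw [h2, abs_div, abs_of_pos (by norm_num : (0:ℝ) < 1512 * 28 ^ 8)]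
    congr 1
    rw [adiff_cast]
    norm_num
  rw [Finset.sum_congr rfl (fun τ _ => h1 τ), ← Finset.sum_div, ← Nat.cast_sum,
    sum_col (fun a b c d => adiff (1512 * cnt (σ.1 0) (σ.1 1) (σ.1 2) (σ.1 3) 8 a b c d) (28^8))]
  show 1 / 2 * ((dev _ : ℝ) / (1512 * 28 ^ 8)) = _
  ring

lemma tv_le_of (σ : Col (SimpleGraph.pathGraph 4) 7) (a b c d : ℕ)
    (ha : (σ.1 0 : ℕ) = a) (hb : (σ.1 1 : ℕ) = b) (hc : (σ.1 2 : ℕ) = c) (hd : (σ.1 3 : ℕ) = d)
    (h : tvs (itN (pack (initf a b c d)) 8) * 10000 ≤ 3678 * (2 * 1512 * 28^8)) :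
    tv _ 7 8 σ ≤ 3678 / 10000 := by
  rw [tv_eq, ha, hb, hc, hd, ← tvs_eq]
  rw [div_le_div_iff₀ (by norm_num) (by norm_num)]
  exact_mod_cast h

lemma proper_vec (a b c d : Fin 7) (h1 : a ≠ b) (h2 : b ≠ c) (h3 : c ≠ d) :
    Proper (SimpleGraph.pathGraph 4) 7 ![a, b, c, d] := by
  rw [proper_iff]
  exact ⟨h1, h2, h3⟩

/-- if two colourings have the same pattern they are relabellings of each other -/
lemma exists_relab (σ σ0 : Col (SimpleGraph.pathGraph 4) 7)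
    (h : ∀ i j, σ0.1 i = σ0.1 j ↔ σ.1 i = σ.1 j) : ∃ e : Equiv.Perm (Fin 7), relab e σ0 = σ := by
  -- partial injection from the range of σ0
  let g : (Set.range σ0.1) → Fin 7 := fun x => σ.1 (Classical.choose x.2)
  have hg : ∀ i, g ⟨σ0.1 i, ⟨i, rfl⟩⟩ = σ.1 i := by
    intro i
    show σ.1 (Classical.choose _) = σ.1 i
    rw [← h]
    exact Classical.choose_spec (⟨i, rfl⟩ : σ0.1 i ∈ Set.range σ0.1)
  have hinj : Function.Injective g := by
    rintro ⟨x, i, hi⟩ ⟨y, j, hj⟩ hxy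
    subst hi; subst hj
    rw [hg, hg] at hxy
    apply Subtype.ext
    exact (h i j).2 hxy
  let e0 : (Set.range σ0.1) ≃ (Set.range g) := Equiv.ofInjective g hinj
  let e : Equiv.Perm (Fin 7) := e0.extendSubtype
  refine ⟨e, ?_⟩
  apply Subtype.ext
  funext i
  show e (σ0.1 i) = σ.1 i
  have h1 : e (σ0.1 i) = e0 ⟨σ0.1 i, ⟨i, rfl⟩⟩ :=
    Equiv.extendSubtype_apply_of_mem e0 (σ0.1 i) ⟨i, rfl⟩
  rw [h1]
  exact hg i

lemma tv_le (σ : Col (SimpleGraph.pathGraph 4) 7) : tv _ 7 8 σ ≤ 3678 / 10000 := by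
  have hp := (proper_iff 7 σ.1).1 σ.2
  obtain ⟨p1, p2, p3⟩ := hp
  have key : ∀ (a b c d : Fin 7) (na nb nc nd : ℕ) (ea : (a:ℕ) = na) (eb : (b:ℕ) = nb)
      (ec : (c:ℕ) = nc) (ed : (d:ℕ) = nd) (h1 : a ≠ b) (h2 : b ≠ c) (h3 : c ≠ d),
      ((a = c ↔ σ.1 0 = σ.1 2) ∧ (b = d ↔ σ.1 1 = σ.1 3) ∧ (a = d ↔ σ.1 0 = σ.1 3)) →
      tvs (itN (pack (initf na nb nc nd)) 8) * 10000 ≤ 3678 * (2 * 1512 * 28^8) →
      tv _ 7 8 σ ≤ 3678 / 10000 := by
    intro a b c d na nb nc nd ea eb ec ed h1 h2 h3 ⟨q1, q2, q3⟩ hnum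
    let σ0 : Col (SimpleGraph.pathGraph 4) 7 := ⟨![a, b, c, d], proper_vec a b c d h1 h2 h3⟩
    have hpat : ∀ i j, σ0.1 i = σ0.1 j ↔ σ.1 i = σ.1 j := by
      have e0 : σ0.1 0 = a := rfl
      have e1 : σ0.1 1 = b := rfl
      have e2 : σ0.1 2 = c := rfl
      have e3 : σ0.1 3 = d := rfl
      intro i j
      fin_cases i <;> fin_cases j <;>
        simp only [Fin.zero_eta, Fin.mk_one, Fin.reduceFinMk, e0, e1, e2, e3] <;>
        first
        | exact ⟨fun _ => rfl, fun _ => rfl⟩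
        | exact ⟨fun h => absurd h h1, fun h => absurd h p1⟩
        | exact ⟨fun h => absurd h.symm h1, fun h => absurd h.symm p1⟩
        | exact ⟨fun h => absurd h h2, fun h => absurd h p2⟩
        | exact ⟨fun h => absurd h.symm h2, fun h => absurd h.symm p2⟩
        | exact ⟨fun h => absurd h h3, fun h => absurd h p3⟩
        | exact ⟨fun h => absurd h.symm h3, fun h => absurd h.symm p3⟩
        | exact q1
        | exact q2
        | exact q3
        | exact ⟨fun h => (q1.1 h.symm).symm, fun h => (q1.2 h.symm).symm⟩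
        | exact ⟨fun h => (q2.1 h.symm).symm, fun h => (q2.2 h.symm).symm⟩
        | exact ⟨fun h => (q3.1 h.symm).symm, fun h => (q3.2 h.symm).symm⟩
    obtain ⟨e, he⟩ := exists_relab σ σ0 hpat
    rw [← he, tv_relab]
    exact tv_le_of σ0 na nb nc nd ea eb ec ed hnum
  by_cases h02 : σ.1 0 = σ.1 2
  · have h03 : σ.1 0 ≠ σ.1 3 := fun h => p3 (h02.symm.trans h)
    by_cases h13 : σ.1 1 = σ.1 3
    · exact key 0 1 0 1 0 1 0 1 rfl rfl rfl rfl (by decide) (by decide) (by decide)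
        ⟨by simp [h02], by simp [h13], by simp [h03]⟩ num0101
    · exact key 0 1 0 2 0 1 0 2 rfl rfl rfl rfl (by decide) (by decide) (by decide)
        ⟨by simp [h02], by simp [h13], by simp [h03]⟩ num0102
  · by_cases h13 : σ.1 1 = σ.1 3
    · have h03 : σ.1 0 ≠ σ.1 3 := fun h => p1 (h.trans h13.symm)
      exact key 0 1 2 1 0 1 2 1 rfl rfl rfl rfl (by decide) (by decide) (by decide)
        ⟨by simp [h02], by simp [h13], by simp [h03]⟩ num0121
    · by_cases h03 : σ.1 0 = σ.1 3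
      · exact key 0 1 2 0 0 1 2 0 rfl rfl rfl rfl (by decide) (by decide) (by decide)
          ⟨by simp [h02], by simp [h13], by simp [h03]⟩ num0120
      · exact key 0 1 2 3 0 1 2 3 rfl rfl rfl rfl (by decide) (by decide) (by decide)
          ⟨by simp [h02], by simp [h13], by simp [h03]⟩ num0123

lemma tmix_seven : tmix (SimpleGraph.pathGraph 4) 7 ≤ 8 := by
  unfold tmix
  have h : (8:ℕ) ∈ {t : ℕ | ∀ σ : Col (SimpleGraph.pathGraph 4) 7, tv _ 7 t σ ≤ Real.exp (-1)} := by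
    intro σ
    have h1 := tv_le σ
    have h2 := Real.exp_neg_one_gt_d9
    linarith
  exact iInf₂_le 8 h

lemma tmix_big : (8:ℕ∞) < tmix (SimpleGraph.pathGraph 4) 500 := by
  unfold tmix
  have h9 : (9:ℕ∞) ≤ ⨅ t ∈ {t : ℕ | ∀ σ : Col (SimpleGraph.pathGraph 4) 500, tv _ 500 t σ ≤ Real.exp (-1)}, (t : ℕ∞) := by
    apply le_iInf₂
    intro t ht
    by_contra hcon
    push Not at hcon
    have ht8 : t ≤ 8 := by
      have : (t:ℕ∞) < ((9:ℕ) : ℕ∞) := hcon
      have := Nat.cast_lt.1 this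
      omega
    let σ : Col (SimpleGraph.pathGraph 4) 500 := ⟨![0, 1, 0, 1], by
      rw [proper_iff]
      refine ⟨?_, ?_, ?_⟩ <;> simp⟩
    have h1 := ht σ
    have h2 := tv_anti (G := SimpleGraph.pathGraph 4) (q := 500) (by norm_num) ht8 σ
    have h3 := tv_ge (G := SimpleGraph.pathGraph 4) (q := 500) (by norm_num) (by norm_num) 8 σ
    rw [w84] at h3
    have h4 := Real.exp_neg_one_lt_d9
    norm_num at h3
    linarith
  exact lt_of_lt_of_le (by norm_num) h9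

end Pool.Agent.H979R2.Glauber
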