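import Mathlib

set_option autoImplicit false
open Finset Filter Topology

namespace Pool.Agent.H979R2.Precut

section conv
variable {G : Type} [Group G] [Fintype G] [DecidableEq G]

/-- `k`-fold convolution power, in the form used by the frozen statement. -/
noncomputable def cv (p : G → ℝ) (k : ℕ) (g : G) : ℝ :=
  ∑ f ∈ (Finset.univ : Finset (Fin k → G)).filter (fun f => (List.ofFn f).prod = g), ∏ i, p (f i)

lemma cv_zero (p : G → ℝ) (g : G) : cv p 0 g = if g = 1 then 1 else 0 := by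
  unfold cv
  rw [Finset.sum_filter]
  simp [eq_comm]

lemma cv_succ (p : G → ℝ) (k : ℕ) (g : G) :
    cv p (k+1) g = ∑ h, p h * cv p k (h⁻¹ * g) := by
  unfold cv
  rw [Finset.sum_filter, ← (Fin.consEquiv (fun _ => G)).sum_comp, Fintype.sum_prod_type]
  apply Finset.sum_congr rfl
  intro h _
  rw [Finset.mul_sum, Finset.sum_filter]
  apply Finset.sum_congr rfl
  intro f _
  have h1 : (List.ofFn ((Fin.consEquiv (fun _ => G)) (h, f))).prod = h * (List.ofFn f).prod := by
    simp [Fin.consEquiv, List.ofFn_succ]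
  have h2 : (∏ i, p ((Fin.consEquiv (fun _ => G)) (h, f) i)) = p h * ∏ i, p (f i) := by
    simp [Fin.consEquiv, Fin.prod_univ_succ]
  have h3 : (h * (List.ofFn f).prod = g) ↔ ((List.ofFn f).prod = h⁻¹ * g) := by
    constructor
    · intro h4; rw [← h4]; group
    · intro h4; rw [h4]; group
  rw [h1, h2]
  by_cases h5 : (List.ofFn f).prod = h⁻¹ * g
  · rw [if_pos (h3.2 h5), if_pos h5]
  · rw [if_neg (fun h6 => h5 (h3.1 h6)), if_neg h5]

end conv

section coord

variable {M : ℕ} [NeZero M]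

/-- one coordinate law: `r` times the point mass at `0` plus `1-r` times uniform -/
noncomputable def b (M : ℕ) (r : ℝ) (x : ZMod M) : ℝ := r * (if x = 0 then 1 else 0) + (1 - r) / M

lemma M_pos : (0:ℝ) < M := by
  have := NeZero.pos M
  exact_mod_cast this

lemma sum_b (r : ℝ) : ∑ x : ZMod M, b M r x = 1 := by
  have hM : (0:ℝ) < M := M_pos
  unfold b
  rw [Finset.sum_add_distrib, ← Finset.mul_sum]
  simp [ZMod.card]
  field_simp
  ring

lemma sum_b_shift (r : ℝ) (y : ZMod M) : ∑ x : ZMod M, b M r (y - x) = 1 := by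
  rw [← sum_b (M := M) r]
  exact (Equiv.subLeft y).sum_comp (fun x => b M r x)

lemma conv_b (r s : ℝ) (y : ZMod M) : ∑ x : ZMod M, b M r x * b M s (y - x) = b M (r * s) y := by
  have hM : (0:ℝ) < M := M_pos
  have h1 : ∀ x : ZMod M, b M r x * b M s (y - x)
      = r * (if x = 0 then b M s (y - x) else 0) + (1 - r) / M * b M s (y - x) := by
    intro x
    unfold b
    split_ifs <;> ring
  rw [Finset.sum_congr rfl (fun x _ => h1 x), Finset.sum_add_distrib, ← Finset.mul_sum,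
    ← Finset.mul_sum, sum_b_shift]
  rw [Finset.sum_ite_eq' Finset.univ (0 : ZMod M) (fun x => b M s (y - x))]
  simp only [Finset.mem_univ, if_true, sub_zero]
  unfold b
  field_simp
  ring

lemma b_nonneg (r : ℝ) (h0 : 0 ≤ r) (h1 : r ≤ 1) (x : ZMod M) : 0 ≤ b M r x := by
  have hM : (0:ℝ) < M := M_pos
  unfold b
  have : 0 ≤ (1 - r) / M := div_nonneg (by linarith) hM.le
  split_ifs <;> linarith

lemma b_ge (r : ℝ) (h0 : 0 ≤ r) (x : ZMod M) : (1 - r) / M ≤ b M r x := by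
  unfold b
  split_ifs <;> linarith

lemma sum_b_ne (r : ℝ) : ∑ x : ZMod M, (if x = 0 then 0 else 1) * b M r x = (1 - r) * (1 - 1 / M) := by
  have hM : (0:ℝ) < M := M_pos
  have h1 : ∀ x : ZMod M, (if x = 0 then (0:ℝ) else 1) * b M r x
      = b M r x - (if x = 0 then b M r x else 0) := by
    intro x
    split_ifs <;> ring
  rw [Finset.sum_congr rfl (fun x _ => h1 x), Finset.sum_sub_distrib, sum_b]
  rw [Finset.sum_ite_eq' Finset.univ (0 : ZMod M) (fun x => b M r x)]
  simp only [Finset.mem_univ, if_true]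
  unfold b
  simp
  field_simp
  ring

end coord

section prod

variable {M : ℕ} [NeZero M] {m : ℕ}

lemma sum_prod_fun (f : Fin m → ZMod M → ℝ) :
    ∑ g : Fin m → ZMod M, ∏ i, f i (g i) = ∏ i, ∑ x : ZMod M, f i x := by
  rw [Finset.prod_univ_sum, Fintype.piFinset_univ]

/-- the product law -/
noncomputable def B (M m : ℕ) (r : ℝ) (g : Fin m → ZMod M) : ℝ := ∏ i, b M r (g i)

lemma sum_B (r : ℝ) : ∑ g : Fin m → ZMod M, B M m r g = 1 := by
  unfold B
  rw [sum_prod_fun (fun _ x => b M r x)]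
  simp [sum_b]

lemma conv_B (r s : ℝ) (y : Fin m → ZMod M) :
    ∑ g : Fin m → ZMod M, B M m r g * B M m s (y - g) = B M m (r * s) y := by
  unfold B
  simp_rw [← Finset.prod_mul_distrib, Pi.sub_apply]
  rw [sum_prod_fun (fun i x => b M r x * b M s (y i - x))]
  simp [conv_b]

lemma B_nonneg (r : ℝ) (h0 : 0 ≤ r) (h1 : r ≤ 1) (g : Fin m → ZMod M) : 0 ≤ B M m r g :=
  Finset.prod_nonneg (fun _ _ => b_nonneg r h0 h1 _)

lemma cardG : (Fintype.card (Fin m → ZMod M) : ℝ) = (M:ℝ) ^ m := by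
  simp [ZMod.card]

lemma B_one (g : Fin m → ZMod M) : B M m 1 g = if g = 0 then 1 else 0 := by
  unfold B b
  simp only [sub_self, zero_div, add_zero, one_mul]
  by_cases h : g = 0
  · simp [h]
  · rw [if_neg h]
    have : ∃ i, g i ≠ 0 := by
      by_contra h2
      push Not at h2
      exact h (funext h2)
    obtain ⟨i, hi⟩ := this
    exact Finset.prod_eq_zero (Finset.mem_univ i) (by simp [hi])

lemma B_ge (r : ℝ) (h0 : 0 ≤ r) (h1 : r ≤ 1) (g : Fin m → ZMod M) :
    (1 - r) ^ m / (M:ℝ) ^ m ≤ B M m r g := by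
  have hM : (0:ℝ) < M := M_pos
  rw [← div_pow]
  unfold B
  have : ((1 - r) / M) ^ m = ∏ _i : Fin m, ((1 - r) / (M:ℝ)) := by
    rw [Finset.prod_const, Finset.card_univ, Fintype.card_fin]
  rw [this]
  apply Finset.prod_le_prod
  · intro i _
    exact div_nonneg (by linarith) hM.le
  · intro i _
    exact b_ge r h0 _

lemma sum_unif : ∑ _g : Fin m → ZMod M, (1:ℝ) / (M:ℝ) ^ m = 1 := by
  have hM : (0:ℝ) < M := M_pos
  rw [Finset.sum_const, nsmul_eq_mul, Finset.card_univ, cardG]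
  field_simp

/-- total variation distance of the product law to uniform -/
noncomputable def D (M m : ℕ) [NeZero M] (r : ℝ) : ℝ :=
  (1 / 2 : ℝ) * ∑ g : Fin m → ZMod M, |B M m r g - 1 / (M:ℝ) ^ m|

lemma D_le (r : ℝ) (h0 : 0 ≤ r) (h1 : r ≤ 1) : D M m r ≤ 1 - (1 - r) ^ m := by
  have hM : (0:ℝ) < M := M_pos
  have hMm : (0:ℝ) < (M:ℝ) ^ m := pow_pos hM _
  unfold D
  set β := (1 - r) ^ m with hβ
  have hβ0 : 0 ≤ β := pow_nonneg (by linarith) _
  have hβ1 : β ≤ 1 := pow_le_one₀ (by linarith) (by linarith)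
  have h2 : ∑ g : Fin m → ZMod M, |B M m r g - 1 / (M:ℝ) ^ m|
      ≤ ∑ g : Fin m → ZMod M, ((B M m r g - β * (1 / (M:ℝ) ^ m)) + (1 - β) * (1 / (M:ℝ) ^ m)) := by
    apply Finset.sum_le_sum
    intro g _
    have h3 : β / (M:ℝ) ^ m ≤ B M m r g := B_ge r h0 h1 g
    have h4 : B M m r g - 1 / (M:ℝ) ^ m = (B M m r g - β * (1 / (M:ℝ) ^ m)) - (1 - β) * (1 / (M:ℝ) ^ m) := by
      ring
    rw [h4]
    refine (abs_sub _ _).trans ?_
    rw [abs_of_nonneg, abs_of_nonneg]
    · exact mul_nonneg (by linarith) (by positivity)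
    · rw [mul_one_div]; linarith
  have h5 : ∑ g : Fin m → ZMod M, ((B M m r g - β * (1 / (M:ℝ) ^ m)) + (1 - β) * (1 / (M:ℝ) ^ m))
      = 2 * (1 - β) := by
    rw [Finset.sum_add_distrib, Finset.sum_sub_distrib, ← Finset.mul_sum, ← Finset.mul_sum, sum_B,
      sum_unif]
    ring
  linarith

lemma D_ge (r : ℝ) (h0 : 0 ≤ r) (h1 : r ≤ 1) :
    (1 - 1 / M) ^ m * (1 - (1 - r) ^ m) ≤ D M m r := by
  have hM : (0:ℝ) < M := M_pos
  have hMm : (0:ℝ) < (M:ℝ) ^ m := pow_pos hM _
  -- test function: all coordinates nonzero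
  let φ : (Fin m → ZMod M) → ℝ := fun g => ∏ i, (if g i = 0 then (0:ℝ) else 1)
  have hφ0 : ∀ g, 0 ≤ φ g := fun g => Finset.prod_nonneg (fun i _ => by split_ifs <;> norm_num)
  have hφ1 : ∀ g, φ g ≤ 1 := fun g => Finset.prod_le_one (fun i _ => by split_ifs <;> norm_num)
    (fun i _ => by split_ifs <;> norm_num)
  have hP : ∑ g : Fin m → ZMod M, φ g * B M m r g = ((1 - r) * (1 - 1 / M)) ^ m := by
    have : ∀ g : Fin m → ZMod M, φ g * B M m r g
        = ∏ i, ((if g i = 0 then (0:ℝ) else 1) * b M r (g i)) := by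
      intro g
      simp only [φ, B]
      rw [Finset.prod_mul_distrib]
    rw [Finset.sum_congr rfl (fun g _ => this g),
      sum_prod_fun (fun _ x => (if x = 0 then (0:ℝ) else 1) * b M r x)]
    simp only [sum_b_ne, Finset.prod_const, Finset.card_univ, Fintype.card_fin]
  have hU : ∑ g : Fin m → ZMod M, φ g * (1 / (M:ℝ) ^ m) = (1 - 1 / M) ^ m := by
    have h3 : ∀ x : ZMod M, b M 0 x = 1 / M := by
      intro x; unfold b; simp
    have h4 : ∀ g : Fin m → ZMod M, (1 / (M:ℝ) ^ m) = B M m 0 g := by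
      intro g
      unfold B
      simp [h3]
    rw [Finset.sum_congr rfl (fun g _ => by rw [h4 g])]
    have : ∀ g : Fin m → ZMod M, φ g * B M m 0 g
        = ∏ i, ((if g i = 0 then (0:ℝ) else 1) * b M 0 (g i)) := by
      intro g
      simp only [φ, B]
      rw [Finset.prod_mul_distrib]
    rw [Finset.sum_congr rfl (fun g _ => this g),
      sum_prod_fun (fun _ x => (if x = 0 then (0:ℝ) else 1) * b M 0 x)]
    simp only [sum_b_ne, Finset.prod_const, Finset.card_univ, Fintype.card_fin, sub_zero, one_mul]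
  have key : ∑ g : Fin m → ZMod M, φ g * (1 / (M:ℝ) ^ m) - ∑ g : Fin m → ZMod M, φ g * B M m r g
      ≤ D M m r := by
    unfold D
    rw [← Finset.sum_sub_distrib, Finset.mul_sum]
    have h6 : ∑ g : Fin m → ZMod M, (1 / 2 : ℝ) * (1 / (M:ℝ) ^ m - B M m r g) = 0 := by
      rw [← Finset.mul_sum, Finset.sum_sub_distrib, sum_B, sum_unif]; ring
    have h7 : ∑ g : Fin m → ZMod M, (φ g * (1 / (M:ℝ) ^ m) - φ g * B M m r g)
        = ∑ g : Fin m → ZMod M, ((φ g - 1/2) * (1 / (M:ℝ) ^ m - B M m r g)) := by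
      rw [← sub_eq_zero, ← Finset.sum_sub_distrib, ← h6]
      apply Finset.sum_congr rfl
      intro g _
      ring
    rw [h7]
    apply Finset.sum_le_sum
    intro g _
    have h8 : |φ g - 1/2| ≤ 1/2 := by
      rw [abs_le]
      constructor <;> linarith [hφ0 g, hφ1 g]
    calc (φ g - 1/2) * (1 / (M:ℝ) ^ m - B M m r g)
        ≤ |(φ g - 1/2) * (1 / (M:ℝ) ^ m - B M m r g)| := le_abs_self _
      _ = |φ g - 1/2| * |B M m r g - 1 / (M:ℝ) ^ m| := by rw [abs_mul, abs_sub_comm (1 / (M:ℝ) ^ m)]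
      _ ≤ 1/2 * |B M m r g - 1 / (M:ℝ) ^ m| := by
          apply mul_le_mul_of_nonneg_right h8 (abs_nonneg _)
  rw [hP, hU, mul_pow] at key
  have : (1 - 1 / (M:ℝ)) ^ m * (1 - (1 - r) ^ m) = (1 - 1 / (M:ℝ)) ^ m - (1 - r) ^ m * (1 - 1 / (M:ℝ)) ^ m := by
    ring
  rw [this]
  exact key

end prod

section walk

variable {M : ℕ} [NeZero M] {m : ℕ}

/-- the driving measure: with probability `α` use the product law, otherwise jump to uniform -/
noncomputable def P (M m : ℕ) (α r : ℝ) (g : Multiplicative (Fin m → ZMod M)) : ℝ :=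
  α * B M m r (Multiplicative.toAdd g) + (1 - α) * (1 / (M:ℝ) ^ m)

lemma P_nonneg (α r : ℝ) (hα0 : 0 ≤ α) (hα1 : α ≤ 1) (h0 : 0 ≤ r) (h1 : r ≤ 1)
    (g : Multiplicative (Fin m → ZMod M)) : 0 ≤ P M m α r g := by
  have hM : (0:ℝ) < M := M_pos
  unfold P
  have h2 := B_nonneg (M := M) r h0 h1 (Multiplicative.toAdd g)
  have h3 : (0:ℝ) ≤ 1 / (M:ℝ) ^ m := by positivity
  have h4 := mul_nonneg hα0 h2
  have h5 := mul_nonneg (sub_nonneg.2 hα1) h3
  linarith

lemma P_sum (α r : ℝ) : ∑ g : Multiplicative (Fin m → ZMod M), P M m α r g = 1 := by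
  have h : ∑ g : Multiplicative (Fin m → ZMod M), P M m α r g
      = ∑ g : Fin m → ZMod M, (α * B M m r g + (1 - α) * (1 / (M:ℝ) ^ m)) := by
    apply Fintype.sum_equiv Multiplicative.toAdd
    intro g
    rfl
  rw [h, Finset.sum_add_distrib, ← Finset.mul_sum, ← Finset.mul_sum, sum_B, sum_unif]
  ring

lemma cv_P (α r : ℝ) (k : ℕ) (g : Multiplicative (Fin m → ZMod M)) :
    cv (P M m α r) k g = α ^ k * B M m (r ^ k) (Multiplicative.toAdd g)
      + (1 - α ^ k) * (1 / (M:ℝ) ^ m) := by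
  induction k generalizing g with
  | zero =>
    rw [cv_zero, pow_zero, pow_zero, B_one]
    by_cases h : g = 1
    · subst h; simp
    · have h' : Multiplicative.toAdd g ≠ 0 := by
        intro h2; exact h (by simpa using h2)
      simp [h, h']
  | succ k ih =>
    rw [cv_succ]
    simp_rw [ih]
    have h : ∑ h : Multiplicative (Fin m → ZMod M), P M m α r h *
          (α ^ k * B M m (r ^ k) (Multiplicative.toAdd (h⁻¹ * g)) + (1 - α ^ k) * (1 / (M:ℝ) ^ m))
        = ∑ h : Fin m → ZMod M, (α * B M m r h + (1 - α) * (1 / (M:ℝ) ^ m)) *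
          (α ^ k * B M m (r ^ k) (Multiplicative.toAdd g - h) + (1 - α ^ k) * (1 / (M:ℝ) ^ m)) := by
      apply Fintype.sum_equiv Multiplicative.toAdd
      intro h
      unfold P
      rw [toAdd_mul, toAdd_inv, neg_add_eq_sub]
    rw [h]
    set y := Multiplicative.toAdd g
    have h2 : ∀ h : Fin m → ZMod M, (α * B M m r h + (1 - α) * (1 / (M:ℝ) ^ m)) *
          (α ^ k * B M m (r ^ k) (y - h) + (1 - α ^ k) * (1 / (M:ℝ) ^ m))
        = (α ^ (k+1)) * (B M m r h * B M m (r ^ k) (y - h))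
          + (α * (1 - α ^ k) * (1 / (M:ℝ) ^ m)) * B M m r h
          + ((1 - α) * (1 / (M:ℝ) ^ m) * α ^ k) * B M m (r ^ k) (y - h)
          + ((1 - α) * (1 - α ^ k) * (1 / (M:ℝ) ^ m)) * (1 / (M:ℝ) ^ m) := by
      intro h
      ring
    rw [Finset.sum_congr rfl (fun x _ => h2 x)]
    rw [Finset.sum_add_distrib, Finset.sum_add_distrib, Finset.sum_add_distrib,
      ← Finset.mul_sum, ← Finset.mul_sum, ← Finset.mul_sum, ← Finset.mul_sum, conv_B, sum_B, sum_unif]
    have h3 : ∑ h : Fin m → ZMod M, B M m (r ^ k) (y - h) = 1 := by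
      rw [← sum_B (M := M) (m := m) (r ^ k)]
      exact (Equiv.subLeft y).sum_comp (fun x => B M m (r ^ k) x)
    rw [h3, ← pow_succ' r k]
    ring

/-- distance to uniform of the walk driven by `P` -/
lemma dist_P (α r : ℝ) (hα0 : 0 ≤ α) (k : ℕ) :
    (1 / 2 : ℝ) * ∑ g : Multiplicative (Fin m → ZMod M),
      |cv (P M m α r) k g - 1 / (Fintype.card (Multiplicative (Fin m → ZMod M)) : ℝ)|
      = α ^ k * D M m (r ^ k) := by
  have hc : (Fintype.card (Multiplicative (Fin m → ZMod M)) : ℝ) = (M:ℝ) ^ m := by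
    rw [← cardG, Fintype.card_congr (Multiplicative.toAdd (α := Fin m → ZMod M))]
  rw [hc]
  have h1 : ∀ g : Multiplicative (Fin m → ZMod M),
      |cv (P M m α r) k g - 1 / (M:ℝ) ^ m|
        = α ^ k * |B M m (r ^ k) (Multiplicative.toAdd g) - 1 / (M:ℝ) ^ m| := by
    intro g
    rw [cv_P]
    rw [← abs_of_nonneg (pow_nonneg hα0 k), ← abs_mul, abs_of_nonneg (pow_nonneg hα0 k)]
    congr 1
    ring
  rw [Finset.sum_congr rfl (fun g _ => h1 g), ← Finset.mul_sum]
  have h2 : ∑ g : Multiplicative (Fin m → ZMod M),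
      |B M m (r ^ k) (Multiplicative.toAdd g) - 1 / (M:ℝ) ^ m|
      = ∑ g : Fin m → ZMod M, |B M m (r ^ k) g - 1 / (M:ℝ) ^ m| := by
    apply Fintype.sum_equiv Multiplicative.toAdd
    intro g
    rfl
  rw [h2]
  unfold D
  ring

end walk

end Pool.Agent.H979R2.Precut
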